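import Pool.Agent.TH237.AV.Sum

set_option autoImplicit false

/-! The map on the odd positive integers: averages of heights and passage times. -/

namespace Pool.Agent.TH237.AV.Br

open Finset Pool.Agent.TH237.AV

/-- `C(m) = (3m+1)/2^e(m)`, `2^e(m)` the largest power of `2` dividing `3m+1` -/
def C (m : ℕ) : ℕ := (3 * m + 1) / 2 ^ padicValNat 2 (3 * m + 1)

/-- the height `h(m)`, the least `k ≥ 1` with `C^k(m) = 1`, and `⊤ = ∞` if there is none -/
noncomputable def height (m : ℕ) : ℕ∞ := sInf {k : ℕ∞ | ∃ j : ℕ, 1 ≤ j ∧ C^[j] m = 1 ∧ k = j}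

/-- `min (h(m), L)`, a natural number -/
noncomputable def truncHeight (m L : ℕ) : ℕ := (min (height m) (L : ℕ∞)).toNat

/-- `min (h, L)`, where `h` is the least `k ≥ 0` with `C^k(m) ≤ y`, and `h = ∞` if there is none -/
noncomputable def truncPassage (y : ℝ) (m L : ℕ) : ℕ := sInf {k : ℕ | ((C^[k] m : ℕ) : ℝ) ≤ y ∨ L ≤ k}

/-- the odd integers `1 ≤ m ≤ x` -/
noncomputable def odds (x : ℝ) : Finset ℕ := (Icc 1 ⌊x⌋₊).filter fun m => m % 2 = 1

theorem Cs_cast (m : ℕ) : Cs (m : ℤ) = (C m : ℤ) := by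
  unfold Cs C
  have e : (3 * (m : ℤ) + 1) = ((3 * m + 1 : ℕ) : ℤ) := by push_cast; ring
  rw [e, padicValInt.of_nat]
  push_cast
  rfl

theorem Cs_iter (m k : ℕ) : Cs^[k] (m : ℤ) = ((C^[k] m : ℕ) : ℤ) := by
  induction k generalizing m with
  | zero => rfl
  | succ k ih => rw [Function.iterate_succ_apply, Function.iterate_succ_apply, Cs_cast, ih]

theorem mem_Bs_cast (y : ℝ) (j m : ℕ) : (m : ℤ) ∈ Bs y j ↔ ∃ i ≤ j, ((C^[i] m : ℕ) : ℝ) ≤ y := by
  rw [mem_Bs]
  apply exists_congr
  intro i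
  rw [Cs_iter, Int.cast_natCast]

theorem passage_le (y : ℝ) (m L : ℕ) : truncPassage y m L ≤ L := Nat.sInf_le (Or.inr le_rfl)

theorem lt_passage_iff (y : ℝ) (m L j : ℕ) : j < truncPassage y m L ↔ j < L ∧ (m : ℤ) ∈ (Bs y j)ᶜ := by
  rw [Set.mem_compl_iff, mem_Bs_cast]
  constructor
  · intro h
    refine ⟨h.trans_le (passage_le y m L), ?_⟩
    rintro ⟨i, hi, h1⟩
    have h2 : truncPassage y m L ≤ i := Nat.sInf_le (Or.inl h1)
    omega
  · rintro ⟨h1, h2⟩
    by_contra hcon
    rw [not_lt] at hcon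
    have h3 : truncPassage y m L ∈ {k : ℕ | ((C^[k] m : ℕ) : ℝ) ≤ y ∨ L ≤ k} :=
      Nat.sInf_mem ⟨L, Or.inr le_rfl⟩
    rcases h3 with h3 | h3
    · exact h2 ⟨_, hcon, h3⟩
    · omega

open scoped Classical in
theorem passage_card (y : ℝ) (m L : ℕ) :
    truncPassage y m L = ((range L).filter fun j => (m : ℤ) ∈ (Bs y j)ᶜ).card := by
  have h : ((range L).filter fun j => (m : ℤ) ∈ (Bs y j)ᶜ) = range (truncPassage y m L) := by
    ext j
    rw [mem_filter, mem_range, mem_range, lt_passage_iff]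
  rw [h, card_range]

open scoped Classical in
theorem sum_passage (y : ℝ) (L n : ℕ) :
    ((∑ m ∈ (Icc 1 n).filter (fun m => m % 2 = 1), truncPassage y m L : ℕ) : ℝ) = SL L y (n + 1) := by
  have h1 : ∀ j, ((Pool.Agent.H499R2.ND.cls (Bs y j)ᶜ 1 ((n : ℝ) + 1) 0 1 0).card : ℝ)
      = ∑ m ∈ (Icc 1 n).filter (fun m => m % 2 = 1), (if (m : ℤ) ∈ (Bs y j)ᶜ then (1 : ℝ) else 0) := by
    intro j
    rw [← natCast_card_filter]
    have h2 : Pool.Agent.H499R2.ND.cls (Bs y j)ᶜ 1 ((n : ℝ) + 1) 0 1 0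
        = (((Icc 1 n).filter (fun m => m % 2 = 1)).filter fun m : ℕ => (m : ℤ) ∈ (Bs y j)ᶜ).map
          Nat.castEmbedding := by
      ext x
      rw [Pool.Agent.H499R2.ND.mem_cls, mem_map]
      constructor
      · rintro ⟨⟨g1, g2⟩, g3, g4, -⟩
        have g1' : 1 ≤ x := by exact_mod_cast g1
        have g2' : x < n + 1 := by exact_mod_cast g2
        obtain ⟨a, rfl⟩ := Int.eq_ofNat_of_zero_le (by omega : 0 ≤ x)
        refine ⟨a, ?_, rfl⟩
        rw [mem_filter, mem_filter, mem_Icc]
        rw [Int.odd_iff] at g3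
        exact ⟨⟨⟨by omega, by omega⟩, by omega⟩, g4⟩
      · rintro ⟨a, ha, rfl⟩
        rw [mem_filter, mem_filter, mem_Icc] at ha
        obtain ⟨⟨⟨g1, g2⟩, g3⟩, g4⟩ := ha
        refine ⟨⟨?_, ?_⟩, ?_, g4, ?_⟩
        · simp only [Nat.castEmbedding_apply, Int.cast_natCast]
          exact_mod_cast g1
        · simp only [Nat.castEmbedding_apply, Int.cast_natCast]
          exact_mod_cast Nat.lt_succ_of_le g2
        · rw [Nat.castEmbedding_apply, Int.odd_iff]
          omega
        · simp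
    rw [h2, card_map]
  unfold SL
  simp only [h1]
  rw [sum_comm]
  push_cast
  apply sum_congr rfl
  intro m _
  rw [← natCast_card_filter, passage_card]

theorem passage_le_height (m L : ℕ) : truncPassage 1 m L ≤ truncHeight m L := by
  unfold truncHeight
  rcases eq_or_ne (height m) ⊤ with h | h
  · rw [h, min_eq_right le_top, ENat.toNat_natCast]
    exact passage_le 1 m L
  · obtain ⟨k, hk⟩ := ENat.ne_top_iff_exists.1 h
    have hmem : ∃ j : ℕ, C^[j] m = 1 ∧ j ≤ k := by
      by_contra hcon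
      push Not at hcon
      have h1 : ((k + 1 : ℕ) : ℕ∞) ≤ height m := by
        unfold height
        refine le_sInf ?_
        rintro c ⟨j, -, hj1, rfl⟩
        have := hcon j hj1
        exact_mod_cast this
      rw [← hk] at h1
      have h2 : k + 1 ≤ k := by exact_mod_cast h1
      omega
    obtain ⟨j, hj1, hjk⟩ := hmem
    rw [← hk]
    have h2 : truncPassage 1 m L ≤ j := Nat.sInf_le (Or.inl (by rw [hj1]; norm_num))
    have h3 := passage_le 1 m L
    have h4 : min ((k : ℕ) : ℕ∞) (L : ℕ∞) = ((min k L : ℕ) : ℕ∞) := by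
      rcases le_total k L with h | h
      · rw [min_eq_left h, min_eq_left (by exact_mod_cast h)]
      · rw [min_eq_right h, min_eq_right (by exact_mod_cast h)]
    rw [h4, ENat.toNat_natCast]
    omega

theorem truncHeight_le (m L : ℕ) : ((truncHeight m L : ℕ) : ENNReal) ≤ ((height m : ℕ∞) : ENNReal) := by
  have h1 : ((truncHeight m L : ℕ) : ℕ∞) ≤ height m := by
    unfold truncHeight
    have h2 : min (height m) (L : ℕ∞) ≠ ⊤ := ne_top_of_le_ne_top (ENat.natCast_ne_top L) (min_le_right _ _)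
    rw [ENat.coe_toNat h2]
    exact min_le_left _ _
  calc ((truncHeight m L : ℕ) : ENNReal) = (((truncHeight m L : ℕ) : ℕ∞) : ENNReal) := by simp
    _ ≤ _ := ENat.toENNReal_le.2 h1

theorem c_eq : 2 / Real.log (16 / 9) = c0 := by
  have h : Real.log (16 / 9) = 2 * (2 * Real.log 2 - Real.log 3) := by
    rw [Real.log_div (by norm_num) (by norm_num), show (16 : ℝ) = 2 ^ 4 by norm_num,
      show (9 : ℝ) = 3 ^ 2 by norm_num, Real.log_pow, Real.log_pow]
    push_cast; ring
  unfold c0
  rw [h]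
  have := den_pos
  field_simp

/-- the lower bound -/
theorem lower {Λ : ℝ} (hΛ : 2 / Real.log (16 / 9) < Λ) : ∃ B : ℝ, 0 < B ∧ ∀ (x y : ℝ) (L : ℕ), 1 ≤ y → 1 ≤ x →
    Λ * Real.log x ≤ L → 2 / Real.log (16 / 9) * (Real.log x - Real.log y) - B
      ≤ 2 / x * ∑ m ∈ odds x, (truncPassage y m L : ℝ) := by
  rw [c_eq] at hΛ ⊢
  obtain ⟨B, hB, h⟩ := sum_lower hΛ
  refine ⟨B, hB, fun x y L hy hx hL => ?_⟩
  have h1 := h L y x hy hx hL
  have hx0 : 0 < x := by linarith
  have h2 := sum_passage y L ⌊x⌋₊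
  push_cast at h2
  unfold odds
  rw [h2]
  have h3 : x ≤ (⌊x⌋₊ : ℝ) + 1 := (Nat.lt_floor_add_one x).le
  have h4 := SL_split L y (b := x) hx h3
  have h5 : 0 ≤ ∑ j ∈ range L, ((Pool.Agent.H499R2.ND.cls (Bs y j)ᶜ x ((⌊x⌋₊ : ℝ) + 1) 0 1 0).card : ℝ) :=
    sum_nonneg fun _ _ => Nat.cast_nonneg _
  have h6 : x / 2 * (c0 * (Real.log x - Real.log y) - B) ≤ SL L y ((⌊x⌋₊ : ℝ) + 1) := by linarith
  have h7 := mul_le_mul_of_nonneg_left h6 (by positivity : 0 ≤ 2 / x)
  have h8 : 2 / x * (x / 2 * (c0 * (Real.log x - Real.log y) - B)) = c0 * (Real.log x - Real.log y) - B := by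
    field_simp
  rw [h8] at h7
  exact h7

/-- the upper bound -/
theorem upper (K : ℕ) : ∃ B : ℝ, 0 < B ∧ ∀ (x y : ℝ) (L : ℕ), 1 ≤ y → y ≤ x →
    2 / Real.log (16 / 9) * Real.log x ≤ L → (L : ℝ) ≤ (Real.log y) ^ K →
    2 / x * ∑ m ∈ odds x, (truncPassage y m L : ℝ)
      ≤ 2 / Real.log (16 / 9) * (Real.log x - Real.log y) + B := by
  rw [c_eq]
  obtain ⟨B, hB, h⟩ := sum_upper K
  have hc := c0_pos
  refine ⟨3 * c0 + 2 * B, by positivity, fun x y L hy hyx hL hLK => ?_⟩
  have hx1 : 1 ≤ x := hy.trans hyx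
  have hx0 : 0 < x := by linarith
  have hy0 : 0 < y := by linarith
  have hlogy : 0 ≤ Real.log y := Real.log_nonneg hy
  have hlogx : Real.log y ≤ Real.log x := Real.log_le_log hy0 hyx
  have h2 := sum_passage y L ⌊x⌋₊
  push_cast at h2
  unfold odds
  rw [h2]
  set X : ℝ := (⌊x⌋₊ : ℝ) + 1 with hX
  have hX1 : x ≤ X := (Nat.lt_floor_add_one x).le
  have hX2 : X ≤ x + 1 := by
    have := Nat.floor_le hx0.le
    linarith
  have hX0 : 0 < X := by linarith
  have hlogX : Real.log X ≤ Real.log x + 1 / x := by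
    have h3 : X ≤ x * (1 + 1 / x) := by
      have : x * (1 + 1 / x) = x + 1 := by field_simp
      rw [this]
      exact hX2
    have h4 := Real.log_le_log hX0 h3
    rw [Real.log_mul hx0.ne' (by positivity)] at h4
    have h5 : Real.log (1 + 1 / x) ≤ 1 / x := by
      have := Real.log_le_sub_one_of_pos (by positivity : 0 < 1 + 1 / x)
      linarith
    linarith
  have hmain : 0 ≤ c0 * (Real.log x - Real.log y) := mul_nonneg hc.le (by linarith)
  rcases Nat.eq_zero_or_pos L with h0 | h0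
  · have h3 : SL L y X = 0 := by
      unfold SL
      rw [h0, range_zero, sum_empty]
    rw [h3, mul_zero]
    linarith
  · have hL1 : (1 : ℝ) ≤ L := by exact_mod_cast h0
    have hXL : Real.log X ≤ L := by
      have hc1 : 3 ≤ c0 := by
        unfold c0
        rw [le_div_iff₀ den_pos]
        have := log3_gt
        have := Real.log_two_lt_d9
        linarith
      rcases le_or_gt x 2 with h3 | h3
      · have h4 : X ≤ 3 := by linarith
        have h5 : X < Real.exp 1 ∨ X = 3 := by
          have h6 : ⌊x⌋₊ ≤ 2 := Nat.floor_le_of_le (by exact_mod_cast h3)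
          have h7 : ⌊x⌋₊ = 0 ∨ ⌊x⌋₊ = 1 ∨ ⌊x⌋₊ = 2 := by omega
          have h8 := Real.exp_one_gt_d9
          rcases h7 with h7 | h7 | h7
          · left; rw [hX, h7]; push_cast; linarith
          · left; rw [hX, h7]; push_cast; linarith
          · right; rw [hX, h7]; norm_num
        rcases h5 with h5 | h5
        · have h6 := Real.log_le_log hX0 h5.le
          rw [Real.log_exp] at h6
          linarith
        · -- `x = 2`
          have h6 : 2 ≤ x := by
            have h7 : (⌊x⌋₊ : ℝ) = 2 := by linarith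
            have h8 := Nat.floor_le hx0.le
            linarith
          have h7 : Real.log 2 ≤ Real.log x := Real.log_le_log (by norm_num) h6
          have h8 := Real.log_two_gt_d9
          rw [h5]
          have h9 := log3_lt
          have h10 : 3 * Real.log x ≤ c0 * Real.log x := mul_le_mul_of_nonneg_right hc1 (by linarith)
          linarith
      · have h4 : 1 / x ≤ 1 / 2 := one_div_le_one_div_of_le (by norm_num) h3.le
        have h5 : Real.log 2 ≤ Real.log x := Real.log_le_log (by norm_num) h3.le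
        have h6 := Real.log_two_gt_d9
        have h10 : 3 * Real.log x ≤ c0 * Real.log x := mul_le_mul_of_nonneg_right hc1 (by linarith)
        linarith
    have h3 := h L y X hy (hyx.trans hX1) hLK hXL
    have h4 : SL L y X ≤ X / 2 * (c0 * (Real.log x - Real.log y) + c0 * (1 / x) + B) := by
      refine h3.trans ?_
      apply mul_le_mul_of_nonneg_left _ (by positivity)
      have := mul_le_mul_of_nonneg_left hlogX hc.le
      nlinarith
    have h5 := mul_le_mul_of_nonneg_left h4 (by positivity : 0 ≤ 2 / x)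
    refine h5.trans ?_
    have h6 : 2 / x * (X / 2 * (c0 * (Real.log x - Real.log y) + c0 * (1 / x) + B))
        = X / x * (c0 * (Real.log x - Real.log y) + c0 * (1 / x) + B) := by field_simp
    rw [h6]
    have h7 : X / x ≤ 1 + 1 / x := by
      rw [div_le_iff₀ hx0]
      have : (1 + 1 / x) * x = x + 1 := by field_simp
      linarith
    have h8 : 1 / x ≤ 1 := by
      rw [div_le_one hx0]; exact hx1
    have h8' : 0 ≤ 1 / x := by positivity
    have h9 : 0 ≤ c0 * (Real.log x - Real.log y) + c0 * (1 / x) + B := by positivity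
    have h10 := mul_le_mul_of_nonneg_right h7 h9
    refine h10.trans ?_
    have h11 : 1 / x * (c0 * (Real.log x - Real.log y)) ≤ c0 := by
      have h12 : Real.log x ≤ x := by
        have := Real.log_le_sub_one_of_pos hx0
        linarith
      have h13 : c0 * (Real.log x - Real.log y) ≤ c0 * x := mul_le_mul_of_nonneg_left (by linarith) hc.le
      calc 1 / x * (c0 * (Real.log x - Real.log y)) ≤ 1 / x * (c0 * x) :=
            mul_le_mul_of_nonneg_left h13 h8'
        _ = c0 := by field_simp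
    have h12 : (1 + 1 / x) * (c0 * (1 / x) + B) ≤ 2 * (c0 + B) := by
      apply mul_le_mul (by linarith) _ (by positivity) (by norm_num)
      have : c0 * (1 / x) ≤ c0 * 1 := mul_le_mul_of_nonneg_left h8 hc.le
      linarith
    have h13 : (1 + 1 / x) * (c0 * (Real.log x - Real.log y) + c0 * (1 / x) + B)
        = c0 * (Real.log x - Real.log y) + 1 / x * (c0 * (Real.log x - Real.log y))
          + (1 + 1 / x) * (c0 * (1 / x) + B) := by ring
    rw [h13]
    linarith

end Pool.Agent.TH237.AV.Br
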