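import Pool.Agent.TH237.AV.Walk

set_option autoImplicit false

/-! The lower bound for the mean number of steps: one stage and the induction over the scales. -/

namespace Pool.Agent.TH237.AV

open Finset Pool.Agent.H320R2.PD Pool.Agent.H499R2.ND

/-- the lower bound for the mean of the truncated number of steps to values `≤ y`, in all classes mod
`3^m` of the odd integers of `[A,2A)` -/
def PLow (Λ y A D : ℝ) : Prop := ∀ m : ℕ, (m : ℝ) ^ 2 ≤ Real.log A → ∀ u v : ℤ, IsCoprime u 3 →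
  ∑ j ∈ range ⌈Λ * Real.log A⌉₊, ((cls (Bs y j) A (2 * A) m u v).card : ℝ)
    ≤ ((⌈Λ * Real.log A⌉₊ : ℝ) - c0 * (Real.log A - Real.log y) + D) * (A / (2 * 3 ^ m))

theorem PLow.mono {Λ y A D D' : ℝ} (hA : 0 < A) (h : PLow Λ y A D) (hD : D ≤ D') : PLow Λ y A D' := by
  intro m hm u v hu
  refine (h m hm u v hu).trans ?_
  apply mul_le_mul_of_nonneg_right _ (by positivity)
  linarith

/-- size of the next scales -/
theorem next20 {A : ℝ} (hA : 0 < A) (ht : 1000 ≤ Real.log A) {k T : ℕ}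
    (hk : k = ⌊Real.log A / 20⌋₊) (h1 : 39 * k ≤ 20 * T) (h2 : 20 * T ≤ 41 * k) :
    Real.log (A * 3 ^ k / 2 ^ T) = Real.log A + k * Real.log 3 - T * Real.log 2 ∧
    0.98 * Real.log A ≤ Real.log (A * 3 ^ k / 2 ^ T) ∧
    Real.log (A * 3 ^ k / 2 ^ T) ≤ 0.99 * Real.log A := by
  have e : Real.log (A * 3 ^ k / 2 ^ T) = Real.log A + k * Real.log 3 - T * Real.log 2 := by
    rw [Real.log_div (by positivity) (by positivity), Real.log_mul (by positivity) (by positivity),
      Real.log_pow, Real.log_pow]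
  refine ⟨e, ?_⟩
  rw [e]
  set t := Real.log A
  have hk1 : (k : ℝ) ≤ t / 20 := by rw [hk]; exact Nat.floor_le (by linarith)
  have hk2 : t / 20 - 1 ≤ k := by rw [hk]; linarith [Nat.lt_floor_add_one (t / 20)]
  have h1' : (39 : ℝ) * k ≤ 20 * T := by exact_mod_cast h1
  have h2' : (20 : ℝ) * T ≤ 41 * k := by exact_mod_cast h2
  have hl := Real.log_two_gt_d9
  have hl' := Real.log_two_lt_d9
  have h3a := log3_lt
  have h3b := log3_gt
  have hk0 : (0 : ℝ) ≤ k := Nat.cast_nonneg k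
  have hT0 : (0 : ℝ) ≤ T := Nat.cast_nonneg T
  have g1 : (T : ℝ) * Real.log 2 ≤ (41 / 20 * k) * 0.6931471808 := by
    apply mul_le_mul (by linarith) hl'.le (by linarith) (by positivity)
  have g2 : (39 / 20 * k) * 0.6931471803 ≤ (T : ℝ) * Real.log 2 := by
    apply mul_le_mul (by linarith) hl.le (by norm_num) hT0
  have g3 : (k : ℝ) * 1.0974 ≤ k * Real.log 3 := mul_le_mul_of_nonneg_left h3b hk0
  have g4 : (k : ℝ) * Real.log 3 ≤ k * 1.1091 := mul_le_mul_of_nonneg_left h3a hk0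
  constructor <;> linarith

/-- the parameter `N` -/
theorem exists_N {Λ : ℝ} (hΛ : c0 < Λ) : ∃ (N : ℕ) (δ : ℝ), 20 ≤ N ∧ 0 < δ ∧
    1 + δ ≤ Λ * ((2 - 1 / (N : ℝ)) * Real.log 2 - Real.log 3) := by
  have hΛ0 : 0 < Λ := c0_pos.trans hΛ
  have h1 : 1 < Λ * (2 * Real.log 2 - Real.log 3) := by
    have := mul_lt_mul_of_pos_right hΛ den_pos
    rwa [c0_mul] at this
  set η := Λ * (2 * Real.log 2 - Real.log 3) - 1 with hη
  have hη0 : 0 < η := by linarith
  have hl := Real.log_two_gt_d9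
  obtain ⟨n, hn⟩ := exists_nat_ge (2 * Λ * Real.log 2 / η)
  refine ⟨n + 20, η / 2, by omega, by linarith, ?_⟩
  have hn' : 2 * Λ * Real.log 2 / η ≤ ((n + 20 : ℕ) : ℝ) := by push_cast; linarith
  have hN0 : (0 : ℝ) < ((n + 20 : ℕ) : ℝ) := by positivity
  have h2 : Λ * Real.log 2 * (1 / ((n + 20 : ℕ) : ℝ)) ≤ η / 2 := by
    rw [mul_one_div, div_le_iff₀ hN0]
    rw [div_le_iff₀ hη0] at hn'
    linarith
  have e : Λ * ((2 - 1 / ((n + 20 : ℕ) : ℝ)) * Real.log 2 - Real.log 3)
      = Λ * (2 * Real.log 2 - Real.log 3) - Λ * Real.log 2 * (1 / ((n + 20 : ℕ) : ℝ)) := by ring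
  rw [e]
  linarith

theorem sum_shift (f : ℕ → ℝ) (k L : ℕ) (hkL : k ≤ L) :
    ∑ j ∈ range L, (if j < k then 0 else f (j - k)) = ∑ i ∈ range (L - k), f i := by
  obtain ⟨n, rfl⟩ := Nat.exists_eq_add_of_le hkL
  rw [sum_range_add, Nat.add_sub_cancel_left]
  have h1 : ∑ x ∈ range k, (if x < k then 0 else f (x - k)) = 0 := by
    apply sum_eq_zero
    intro x hx
    rw [if_pos (mem_range.1 hx)]
  rw [h1, zero_add]
  apply sum_congr rfl
  intro x _
  rw [if_neg (by omega), Nat.add_sub_cancel_left]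

theorem sum_extend {f : ℕ → ℝ} {a b : ℕ} (hab : a ≤ b) {K : ℝ} (hf : ∀ j, f j ≤ K) :
    ∑ j ∈ range b, f j ≤ ∑ j ∈ range a, f j + ((b : ℝ) - a) * K := by
  obtain ⟨n, rfl⟩ := Nat.exists_eq_add_of_le hab
  rw [sum_range_add]
  have h1 : ∑ x ∈ range n, f (a + x) ≤ ∑ x ∈ range n, K := sum_le_sum fun x _ => hf _
  rw [sum_const, card_range, nsmul_eq_mul] at h1
  push_cast
  linarith

theorem cls_empty (a b : ℝ) (m : ℕ) (u v : ℤ) : cls ∅ a b m u v = ∅ := by
  ext x
  rw [mem_cls]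
  simp

/-- ONE STAGE of the lower bound -/
theorem low_stage {Λ : ℝ} (hΛ : c0 < Λ) : ∃ C t0 : ℝ, 0 < C ∧ 1000 ≤ t0 ∧ ∀ y A D : ℝ, 1 ≤ y → 0 < A →
    t0 ≤ Real.log A → 1.1 * Real.log y ≤ Real.log A → 0 ≤ D →
    (∀ T : ℕ, 39 * ⌊Real.log A / 20⌋₊ ≤ 20 * T → 20 * T ≤ 41 * ⌊Real.log A / 20⌋₊ →
      PLow Λ y (A * 3 ^ ⌊Real.log A / 20⌋₊ / 2 ^ T) D) →
    PLow Λ y A (D + C / (Real.log A) ^ 2) := by
  obtain ⟨N, δ, hN, hδ, hNδ⟩ := exists_N hΛ
  obtain ⟨C₁, hC₁, hE⟩ := err_bound20 3 1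
  obtain ⟨C₂, hC₂, hM⟩ := mass_bound20 N hN 3
  have hΛ0 : 0 < Λ := c0_pos.trans hΛ
  have hN0 : 0 < N := by omega
  have hNR : (0 : ℝ) < N := by exact_mod_cast hN0
  refine ⟨(Λ + 1) * (2 * (Nat.factorial 3 * 5 ^ 3)) + 2 * c0 * Real.log 2 * C₂ + (Λ + 1) * (C₁ + C₂),
    max 1000 (20 * (1 / δ + 1)), ?_, le_max_left _ _, ?_⟩
  · have := c0_pos
    have hl := Real.log_pos (by norm_num : (1 : ℝ) < 2)
    positivity
  intro y A D hy hA ht0 hyA hD hT
  have ht : 1000 ≤ Real.log A := (le_max_left _ _).trans ht0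
  have ht2 : 20 * (1 / δ + 1) ≤ Real.log A := (le_max_right _ _).trans ht0
  intro m hm u v hu
  set t := Real.log A with htdef
  have htpos : 0 < t := by linarith
  set k := ⌊t / 20⌋₊ with hk
  set m' := ⌊Real.sqrt (0.8 * t)⌋₊ with hm'
  have hk1 : (k : ℝ) ≤ t / 20 := Nat.floor_le (by linarith)
  have hk2 : t / 20 - 1 ≤ k := by linarith [Nat.lt_floor_add_one (t / 20)]
  have hk1N : 1 ≤ k := by
    have : (1 : ℝ) ≤ k := by linarith
    exact_mod_cast this
  have hs8 : Real.sqrt (0.8 * t) ≤ t / 20 - 1 := by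
    rw [Real.sqrt_le_left (by linarith)]
    nlinarith
  have hm'k : m' ≤ k := by
    have h1 : (m' : ℝ) ≤ Real.sqrt (0.8 * t) := Nat.floor_le (Real.sqrt_nonneg _)
    have : (m' : ℝ) ≤ k := by linarith
    exact_mod_cast this
  have hm'sq : (m' : ℝ) ^ 2 ≤ 0.8 * t := by
    have h1 : (m' : ℝ) ≤ Real.sqrt (0.8 * t) := Nat.floor_le (Real.sqrt_nonneg _)
    calc (m' : ℝ) ^ 2 ≤ Real.sqrt (0.8 * t) ^ 2 := pow_le_pow_left₀ (Nat.cast_nonneg _) h1 2
      _ = 0.8 * t := Real.sq_sqrt (by positivity)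
  set L := ⌈Λ * t⌉₊ with hL
  have hL1 : Λ * t ≤ L := Nat.le_ceil _
  have hL2 : (L : ℝ) ≤ (Λ + 1) * t := by
    have := Nat.ceil_lt_add_one (by positivity : 0 ≤ Λ * t)
    rw [← hL] at this
    linarith
  have hlogy : 0 ≤ Real.log y := Real.log_nonneg hy
  have hl2a := Real.log_two_gt_d9
  have hl2b := Real.log_two_lt_d9
  have hc0 := c0_pos
  -- scales
  have hscale : ∀ T : ℕ, (2 * N - 1) * k ≤ N * T → N * T ≤ (2 * N + 1) * k →
      Real.log (A * 3 ^ k / 2 ^ T) = t + k * Real.log 3 - T * Real.log 2 ∧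
      0.98 * t ≤ Real.log (A * 3 ^ k / 2 ^ T) ∧ Real.log (A * 3 ^ k / 2 ^ T) ≤ 0.99 * t ∧
      ⌈Λ * Real.log (A * 3 ^ k / 2 ^ T)⌉₊ + k ≤ L := by
    intro T h1 h2
    obtain ⟨g1, g2⟩ := spread20 hN h1 h2
    obtain ⟨e1, e2, e3⟩ := next20 hA ht hk g1 g2
    refine ⟨e1, e2, e3, ?_⟩
    have h4 : (⌈Λ * Real.log (A * 3 ^ k / 2 ^ T)⌉₊ : ℝ) < Λ * Real.log (A * 3 ^ k / 2 ^ T) + 1 :=
      Nat.ceil_lt_add_one (mul_nonneg hΛ0.le (by linarith))
    have h5 : (2 - 1 / (N : ℝ)) * k ≤ T := by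
      have h6 : (((2 * N - 1) * k : ℕ) : ℝ) ≤ ((N * T : ℕ) : ℝ) := by exact_mod_cast h1
      rw [Nat.cast_mul, Nat.cast_mul, Nat.cast_sub (by omega)] at h6
      push_cast at h6
      have e : (2 - 1 / (N : ℝ)) * k = (2 * N - 1) * k / N := by field_simp
      rw [e, div_le_iff₀ hNR]
      linarith
    have h7 : (2 - 1 / (N : ℝ)) * k * Real.log 2 ≤ T * Real.log 2 :=
      mul_le_mul_of_nonneg_right h5 (by linarith)
    have h8 : (k : ℝ) * (1 + δ) ≤ Λ * (T * Real.log 2 - k * Real.log 3) := by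
      have h9 := mul_le_mul_of_nonneg_left hNδ (Nat.cast_nonneg k : (0 : ℝ) ≤ k)
      have h10 : Λ * ((2 - 1 / (N : ℝ)) * k * Real.log 2 - k * Real.log 3)
          ≤ Λ * (T * Real.log 2 - k * Real.log 3) := mul_le_mul_of_nonneg_left (by linarith) hΛ0.le
      refine le_trans (le_of_eq_of_le rfl h9) (le_trans (le_of_eq (by ring)) h10)
    have h11 : 1 ≤ δ * k := by
      have h12 : 1 / δ ≤ k := by linarith
      rw [div_le_iff₀ hδ] at h12
      linarith
    have h13 : (⌈Λ * Real.log (A * 3 ^ k / 2 ^ T)⌉₊ : ℝ) + k < L := by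
      have hw : Λ * Real.log (A * 3 ^ k / 2 ^ T)
          = Λ * t - Λ * (T * Real.log 2 - k * Real.log 3) := by rw [e1]; ring
      linarith
    have h14 : ((⌈Λ * Real.log (A * 3 ^ k / 2 ^ T)⌉₊ + k : ℕ) : ℝ) < (L : ℝ) := by
      rw [Nat.cast_add]; exact h13
    exact (Nat.cast_lt.1 h14).le
  have hkL : k ≤ L := by
    have : (k : ℝ) ≤ L := by
      have h1 : c0 * t ≤ Λ * t := mul_le_mul_of_nonneg_right hΛ.le htpos.le
      have h2 : 1 ≤ c0 := by
        unfold c0
        rw [le_div_iff₀ den_pos]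
        have := log3_gt
        linarith
      nlinarith
    exact_mod_cast this
  set ε₁ := (L : ℝ) * (2 * Real.exp (-(t / 5))) with hε₁
  have hε₁0 : 0 ≤ ε₁ := by positivity
  set Q := (L : ℝ) - c0 * (t - Real.log y) + D + ε₁ with hQ
  have hQ0 : 0 ≤ Q := by
    have h1 : c0 * t ≤ Λ * t := mul_le_mul_of_nonneg_right hΛ.le htpos.le
    have h2 : 0 ≤ c0 * Real.log y := by positivity
    rw [hQ]
    nlinarith
  have hmain := stageW hN odd_one (isCoprime_one_left : IsCoprime (1 : ℤ) 3) (Bs y)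
    (fun j => if j < k then ∅ else Bs y (j - k)) L hA (k := k) (m := m) (m' := m') hk1N hm'k
    (by
      intro j _ w hw M x hM hx hAM _ hB hV
      have hw' := hw
      rw [mem_GWN hN0] at hw'
      obtain ⟨hFW, g1, g2⟩ := hw'
      obtain ⟨g3, g4⟩ := spread20 hN g1 g2
      obtain ⟨hlen, hlet⟩ := FW_props hFW
      have hdip : y * 2 ^ w.sum < A := by
        rw [← Real.exp_log hA, ← Real.exp_log (by linarith : 0 < y), ← htdef,
          ← Real.exp_log (by positivity : (0 : ℝ) < 2 ^ w.sum), ← Real.exp_add, Real.exp_lt_exp,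
          Real.log_pow]
        have h4' : (20 : ℝ) * w.sum ≤ 41 * k := by exact_mod_cast g4
        have h5 : (w.sum : ℝ) * Real.log 2 ≤ (41 / 20 * k) * 0.6931471808 := by
          apply mul_le_mul (by linarith) hl2b.le (by linarith) (by positivity)
        linarith
      obtain ⟨h6, h7⟩ := path_Bs w hlen hlet hM hx hA hAM hdip hB hV
      rw [if_neg (by omega)]
      exact h7)
    (fun T => Q + c0 * Real.log 2 * ((T : ℝ) - 2 * k))
    (by
      intro T h1 h2 u v hu
      obtain ⟨e1, e2, e3, e4⟩ := hscale T h1 h2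
      obtain ⟨g1, g2⟩ := spread20 hN h1 h2
      set A' := A * 3 ^ k / 2 ^ T with hA'
      have hA'0 : 0 < A' := by positivity
      have h3 : ∑ j ∈ range L, ((cls (if j < k then ∅ else Bs y (j - k)) A' (2 * A') m' u v).card : ℝ)
          = ∑ i ∈ range (L - k), ((cls (Bs y i) A' (2 * A') m' u v).card : ℝ) := by
        rw [← sum_shift _ k L hkL]
        apply sum_congr rfl
        intro j _
        split_ifs
        · rw [cls_empty]; simp
        · rfl
      rw [h3]
      have h5 := sum_extend (f := fun i => ((cls (Bs y i) A' (2 * A') m' u v).card : ℝ))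
        (a := ⌈Λ * Real.log A'⌉₊) (b := L - k) (by omega) (K := A' / (2 * 3 ^ m') + 1) (by
          intro j
          have := cls_card_le (Bs y j) (by linarith : A' ≤ 2 * A') m' hu v
          rw [show 2 * A' - A' = A' by ring] at this
          exact this)
      have h6 := hT T g1 g2 m' (by
        rw [← hA']
        linarith) u v hu
      rw [← hA'] at h6
      refine h5.trans ?_
      have hLk : ((L - k : ℕ) : ℝ) = L - k := by rw [Nat.cast_sub hkL]
      rw [hLk]
      set Y := A' / (2 * 3 ^ m') with hY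
      have hY0 : 0 < Y := by positivity
      have h7 : 1 ≤ 2 * Real.exp (-(t / 5)) * Y := by
        have h8 := pow_m_le ht (m := m') (by linarith)
        have h9 : A' = Real.exp (Real.log A') := (Real.exp_log hA'0).symm
        have h10 : Real.exp (0.98 * t) ≤ A' := by rw [h9]; exact Real.exp_le_exp.2 e2
        rw [hY, mul_div_assoc', le_div_iff₀ (by positivity), one_mul]
        calc 2 * (3 : ℝ) ^ m' ≤ 2 * Real.exp (0.05 * t) := by linarith
          _ ≤ 2 * Real.exp (-(t / 5) + 0.98 * t) := by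
              apply mul_le_mul_of_nonneg_left _ (by norm_num)
              apply Real.exp_le_exp.2
              linarith
          _ = 2 * Real.exp (-(t / 5)) * Real.exp (0.98 * t) := by rw [Real.exp_add]; ring
          _ ≤ 2 * Real.exp (-(t / 5)) * A' := mul_le_mul_of_nonneg_left h10 (by positivity)
      have h11 : (⌈Λ * Real.log A'⌉₊ : ℝ) ≤ L - k := by
        have : ((⌈Λ * Real.log A'⌉₊ + k : ℕ) : ℝ) ≤ L := by exact_mod_cast e4
        push_cast at this
        linarith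
      have h12 : ((L : ℝ) - k - ⌈Λ * Real.log A'⌉₊) * 1
          ≤ (L : ℝ) * (2 * Real.exp (-(t / 5)) * Y) := by
        apply mul_le_mul _ h7 (by norm_num) (Nat.cast_nonneg _)
        have : (0 : ℝ) ≤ k := Nat.cast_nonneg _
        have : (0 : ℝ) ≤ (⌈Λ * Real.log A'⌉₊ : ℝ) := Nat.cast_nonneg _
        linarith
      have h13 : (Q + c0 * Real.log 2 * ((T : ℝ) - 2 * k)) * Y
          = ((L : ℝ) - k - c0 * (Real.log A' - Real.log y) + D) * Y
            + (L : ℝ) * (2 * Real.exp (-(t / 5)) * Y) := by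
        rw [e1, hQ, hε₁]
        have := c0_mul
        have h14 : c0 * (k * Real.log 3) = 2 * (c0 * Real.log 2 * k) - k := by
          have : c0 * Real.log 3 = 2 * (c0 * Real.log 2) - 1 := by linarith
          calc c0 * (k * Real.log 3) = (c0 * Real.log 3) * k := by ring
            _ = _ := by rw [this]; ring
        linear_combination Y * h14
      rw [h13]
      have h15 : ((L : ℝ) - k - ⌈Λ * Real.log A'⌉₊) * (Y + 1)
          = ((L : ℝ) - k - ⌈Λ * Real.log A'⌉₊) * Y + ((L : ℝ) - k - ⌈Λ * Real.log A'⌉₊) * 1 := by ring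
      rw [h15]
      have h16 : ((⌈Λ * Real.log A'⌉₊ : ℝ) - c0 * (Real.log A' - Real.log y) + D) * Y
          + ((L : ℝ) - k - ⌈Λ * Real.log A'⌉₊) * Y
          = ((L : ℝ) - k - c0 * (Real.log A' - Real.log y) + D) * Y := by ring
      linarith)
    u v hu
  refine hmain.trans ?_
  apply mul_le_mul_of_nonneg_right _ (by positivity)
  set μ := ∑ w ∈ GW (3 * k) k (Tlo N k) (Thi N k), wwt w with hμ
  have hμ1 : 0 ≤ 1 - μ := mass_nonneg _ _ _ _
  have hμ2 : 1 - μ ≤ C₂ / t ^ 3 := hM t ht k hk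
  have hsum : ∑ w ∈ GW (3 * k) k (Tlo N k) (Thi N k), wwt w * (Q + c0 * Real.log 2 * ((w.sum : ℝ) - 2 * k))
      = Q * μ + c0 * Real.log 2 * ∑ w ∈ GW (3 * k) k (Tlo N k) (Thi N k), wwt w * ((w.sum : ℝ) - 2 * k) := by
    rw [hμ, mul_sum, mul_sum, ← sum_add_distrib]
    apply sum_congr rfl
    intro w _
    ring
  rw [hsum]
  have hmean := mean_GW_le (3 * k) k (Tlo N k) (Thi N k)
  rw [← hμ] at hmean
  have h1 : c0 * Real.log 2 * ∑ w ∈ GW (3 * k) k (Tlo N k) (Thi N k), wwt w * ((w.sum : ℝ) - 2 * k)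
      ≤ c0 * Real.log 2 * (2 * k * (1 - μ)) := mul_le_mul_of_nonneg_left hmean (by positivity)
  have h2 : Q * μ ≤ Q := by nlinarith
  have hEr := hE A hA ht k m m' hm hk hm'
  rw [← htdef] at hEr
  have h3 : ErrN N 1 A k m m' ≤ (C₁ + C₂) / t ^ 3 := by
    unfold ErrN
    rw [← hμ, add_div]
    linarith
  have h4 : (L : ℝ) * ErrN N 1 A k m m' ≤ (Λ + 1) * (C₁ + C₂) / t ^ 2 := by
    calc (L : ℝ) * ErrN N 1 A k m m' ≤ L * ((C₁ + C₂) / t ^ 3) :=
          mul_le_mul_of_nonneg_left h3 (Nat.cast_nonneg _)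
      _ ≤ ((Λ + 1) * t) * ((C₁ + C₂) / t ^ 3) := mul_le_mul_of_nonneg_right hL2 (by positivity)
      _ = _ := by field_simp
  have h5 : ε₁ ≤ (Λ + 1) * (2 * (Nat.factorial 3 * 5 ^ 3)) / t ^ 2 := by
    have h6 := exp_neg_le 3 (by norm_num : (0 : ℝ) < 5) htpos
    calc ε₁ ≤ ((Λ + 1) * t) * (2 * ((Nat.factorial 3 * 5 ^ 3) / t ^ 3)) := by
          rw [hε₁]
          apply mul_le_mul hL2 _ (by positivity) (by positivity)
          linarith
      _ = _ := by field_simp
  have h6 : c0 * Real.log 2 * (2 * k * (1 - μ)) ≤ 2 * c0 * Real.log 2 * C₂ / t ^ 2 := by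
    have h7 : (k : ℝ) * (1 - μ) ≤ t * (C₂ / t ^ 3) := by
      apply mul_le_mul (by linarith) hμ2 hμ1 htpos.le
    have h8 : t * (C₂ / t ^ 3) = C₂ / t ^ 2 := by field_simp
    rw [h8] at h7
    calc c0 * Real.log 2 * (2 * k * (1 - μ)) = 2 * c0 * Real.log 2 * (k * (1 - μ)) := by ring
      _ ≤ 2 * c0 * Real.log 2 * (C₂ / t ^ 2) := mul_le_mul_of_nonneg_left h7 (by positivity)
      _ = _ := by ring
  rw [add_div, add_div]
  rw [hQ] at h2 ⊢
  linarith

/-- the induction over the scales -/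
theorem low_all {Λ : ℝ} (hΛ : c0 < Λ) : ∃ C t0 : ℝ, 0 < C ∧ 1000 ≤ t0 ∧ ∀ y D : ℝ, 1 ≤ y → 0 ≤ D →
    (∀ A : ℝ, 1 ≤ A → (Real.log A ≤ t0 ∨ Real.log A ≤ 1.1 * Real.log y) → PLow Λ y A D) →
    ∀ A : ℝ, 1 ≤ A → PLow Λ y A (D + C) := by
  obtain ⟨C, t0, hC, ht0, h⟩ := low_stage hΛ
  refine ⟨100 * C / (0.98 * t0), t0, by positivity, ht0, fun y D hy hD hbase => ?_⟩
  have key : ∀ n : ℕ, ∀ A : ℝ, 1 ≤ A → Real.log A ≤ n → 0.98 * t0 ≤ Real.log A →
      PLow Λ y A (D + 100 * C * (1 / (0.98 * t0) - 1 / Real.log A)) := by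
    intro n
    induction n with
    | zero =>
      intro A _ h1 h2
      simp at h1
      linarith
    | succ n ih =>
      intro A hA h1 h2
      have hA0 : 0 < A := by linarith
      have ht00 : 0 < 0.98 * t0 := by linarith
      have htp : 0 < Real.log A := by linarith
      by_cases hb : Real.log A ≤ t0 ∨ Real.log A ≤ 1.1 * Real.log y
      · refine (hbase A hA hb).mono hA0 ?_
        have h3 : 1 / Real.log A ≤ 1 / (0.98 * t0) := one_div_le_one_div_of_le ht00 h2
        have h4 : 0 ≤ 100 * C * (1 / (0.98 * t0) - 1 / Real.log A) :=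
          mul_nonneg (by positivity) (by linarith)
        linarith
      · push Not at hb
        obtain ⟨hb1, hb2⟩ := hb
        have hlA : 1000 ≤ Real.log A := by linarith
        have h099 : 0 < 0.99 * Real.log A := by linarith
        have e0 : 1 / (0.99 * Real.log A) ≤ 1 / (0.98 * t0) :=
          one_div_le_one_div_of_le ht00 (by linarith)
        have hst := h y A (D + 100 * C * (1 / (0.98 * t0) - 1 / (0.99 * Real.log A))) hy hA0 hb1.le hb2.le
          (by
            have : 0 ≤ 100 * C * (1 / (0.98 * t0) - 1 / (0.99 * Real.log A)) :=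
              mul_nonneg (by positivity) (by linarith)
            linarith)
          (by
            intro T g1 g2
            obtain ⟨e1, e2, e3⟩ := next20 hA0 hlA rfl g1 g2
            set A' := A * 3 ^ ⌊Real.log A / 20⌋₊ / 2 ^ T with hA'
            have hA'0 : 0 < A' := by positivity
            have hlA' : 0 < Real.log A' := by linarith
            have hA'1 : 1 ≤ A' := by
              by_contra hcon
              rw [not_le] at hcon
              have := Real.log_neg hA'0 hcon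
              linarith
            refine (ih A' hA'1 ?_ ?_).mono hA'0 ?_
            · push_cast at h1
              linarith
            · linarith
            · have h3 : 1 / (0.99 * Real.log A) ≤ 1 / Real.log A' := one_div_le_one_div_of_le hlA' e3
              have h4 : 100 * C * (1 / (0.98 * t0) - 1 / Real.log A')
                  ≤ 100 * C * (1 / (0.98 * t0) - 1 / (0.99 * Real.log A)) :=
                mul_le_mul_of_nonneg_left (by linarith) (by positivity)
              linarith)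
        refine hst.mono hA0 ?_
        have h5 : C / Real.log A ^ 2 ≤ 100 * C * (1 / (0.99 * Real.log A) - 1 / Real.log A) := by
          have e5 : 100 * C * (1 / (0.99 * Real.log A) - 1 / Real.log A) = C / (0.99 * Real.log A) := by
            field_simp
            ring
          rw [e5]
          apply div_le_div_of_nonneg_left hC.le (by positivity)
          nlinarith
        have e6 : 100 * C * (1 / (0.98 * t0) - 1 / Real.log A)
            = 100 * C * (1 / (0.98 * t0) - 1 / (0.99 * Real.log A))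
              + 100 * C * (1 / (0.99 * Real.log A) - 1 / Real.log A) := by ring
        rw [e6]
        linarith
  intro A hA
  have hA0 : 0 < A := by linarith
  rcases le_or_gt (Real.log A) t0 with h1 | h1
  · refine (hbase A hA (Or.inl h1)).mono hA0 ?_
    have : 0 ≤ 100 * C / (0.98 * t0) := by positivity
    linarith
  · obtain ⟨n, hn⟩ := exists_nat_ge (Real.log A)
    refine (key n A hA hn (by linarith)).mono hA0 ?_
    have h2 : 0 ≤ 1 / Real.log A := by
      have : 0 < Real.log A := by linarith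
      positivity
    have h3 : 100 * C * (1 / (0.98 * t0) - 1 / Real.log A) ≤ 100 * C * (1 / (0.98 * t0)) :=
      mul_le_mul_of_nonneg_left (by linarith) (by positivity)
    have h4 : 100 * C * (1 / (0.98 * t0)) = 100 * C / (0.98 * t0) := by ring
    linarith

end Pool.Agent.TH237.AV
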