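import Pool.Agent.TH237.AV.Bdry
import Pool.Agent.TH237.AV.Low

set_option autoImplicit false

/-! The base of the induction for the lower bound: small scales, and the scales near `y`. -/

namespace Pool.Agent.TH237.AV

open Finset Pool.Agent.H320R2.PD Pool.Agent.H499R2.ND

/-- the trivial bound -/
theorem low_base {Λ : ℝ} (hΛ : 0 < Λ) (t0 : ℝ) (ht0 : 0 ≤ t0) : ∀ y A : ℝ, 1 ≤ y → 1 ≤ A →
    (Real.log A ≤ t0 ∨ Real.log A ≤ Real.log y) → PLow Λ y A (c0 * t0 + 5 * (2 * Λ + 1)) := by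
  intro y A hy hA h m hm u v hu
  have hA0 : 0 < A := by linarith
  have hlogy : 0 ≤ Real.log y := Real.log_nonneg hy
  set t := Real.log A with ht
  have ht0' : 0 ≤ t := Real.log_nonneg hA
  set L := ⌈Λ * t⌉₊ with hL
  have hL2 : (L : ℝ) ≤ Λ * t + 1 := (Nat.ceil_lt_add_one (by positivity)).le
  have hc := c0_pos
  have h1 : ∑ j ∈ range L, ((cls (Bs y j) A (2 * A) m u v).card : ℝ) ≤ L * (A / (2 * 3 ^ m) + 1) := by
    calc ∑ j ∈ range L, ((cls (Bs y j) A (2 * A) m u v).card : ℝ)
        ≤ ∑ j ∈ range L, (A / (2 * 3 ^ m) + 1) := by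
          apply sum_le_sum
          intro j _
          have := cls_card_le (Bs y j) (by linarith : A ≤ 2 * A) m hu v
          rw [show 2 * A - A = A by ring] at this
          exact this
      _ = _ := by rw [sum_const, card_range, nsmul_eq_mul]
  refine h1.trans ?_
  have hY : (0 : ℝ) < A / (2 * 3 ^ m) := by positivity
  have h2 : (L : ℝ) ≤ 5 * (2 * Λ + 1) * (A / (2 * 3 ^ m)) := by
    rw [mul_div_assoc', le_div_iff₀ (by positivity)]
    have h3 : (3 : ℝ) ^ m ≤ Real.exp (0.72 + t / 2) := by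
      have h4 : (3 : ℝ) ^ m = Real.exp (m * Real.log 3) := by
        rw [Real.exp_nat_mul, Real.exp_log (by norm_num)]
      rw [h4]
      apply Real.exp_le_exp.2
      have h5 := log3_lt
      have h6 : (m : ℝ) * Real.log 3 ≤ m * 1.2 := mul_le_mul_of_nonneg_left (by linarith) (Nat.cast_nonneg m)
      nlinarith [sq_nonneg ((m : ℝ) - 1.2)]
    have h4 : Real.exp 0.72 ≤ 2.5 := by
      have h5 : Real.exp 0.72 = Real.exp 0.36 * Real.exp 0.36 := by rw [← Real.exp_add]; norm_num
      have h6 := Real.exp_bound_div_one_sub_of_interval (x := 0.36) (by norm_num) (by norm_num)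
      have h7 : Real.exp 0.36 ≤ 1.5625 := h6.trans (by norm_num)
      have h8 := Real.exp_pos 0.36
      rw [h5]
      nlinarith
    have h5 : Λ * t + 1 ≤ (2 * Λ + 1) * Real.exp (t / 2) := by
      have h6 := Real.add_one_le_exp (t / 2)
      have h7 : t ≤ 2 * Real.exp (t / 2) := by linarith
      have h8 : 1 ≤ Real.exp (t / 2) := Real.one_le_exp (by linarith)
      nlinarith
    have h6 : A = Real.exp (t / 2) * Real.exp (t / 2) := by
      rw [← Real.exp_add, add_halves, ht, Real.exp_log hA0]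
    have h7 : Real.exp (0.72 + t / 2) = Real.exp 0.72 * Real.exp (t / 2) := Real.exp_add _ _
    set E := Real.exp (t / 2) with hE
    have hE0 : 0 < E := Real.exp_pos _
    calc (L : ℝ) * (2 * 3 ^ m) ≤ ((2 * Λ + 1) * E) * (2 * (2.5 * E)) := by
          apply mul_le_mul (hL2.trans h5) _ (by positivity) (by positivity)
          have : (3 : ℝ) ^ m ≤ 2.5 * E := by
            rw [h7] at h3
            exact h3.trans (mul_le_mul_of_nonneg_right h4 hE0.le)
          linarith
      _ = 5 * (2 * Λ + 1) * (E * E) := by ring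
      _ = 5 * (2 * Λ + 1) * A := by rw [← h6]
  have h3 : 0 ≤ c0 * t0 - c0 * (t - Real.log y) := by
    rcases h with h | h
    · nlinarith
    · nlinarith [mul_nonneg hc.le ht0]
  have h4 := mul_nonneg h3 hY.le
  nlinarith

theorem pow8 (k : ℕ) (hk : 10 ≤ k) : (1 / 2 : ℝ) ^ (3 * k) * (k * (9 * k + 8)) ≤ 1 := by
  have h1 : (k : ℝ) ≤ 2 ^ k := by exact_mod_cast Nat.lt_two_pow_self.le
  have hk' : (10 : ℝ) ≤ k := by exact_mod_cast hk
  rw [one_div, inv_pow, pow_mul', inv_mul_le_iff₀ (by positivity), mul_one]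
  have h2 : (k : ℝ) ^ 3 ≤ (2 ^ k) ^ 3 := pow_le_pow_left₀ (by positivity) h1 3
  refine le_trans ?_ h2
  have h3 : 0 ≤ (k : ℝ) * k * (k - 10) := mul_nonneg (by positivity) (by linarith)
  have h4 : 0 ≤ (k : ℝ) * (k - 8) := mul_nonneg (by positivity) (by linarith)
  nlinarith

/-- mean of `tau` over the typical words -/
theorem W_GW_le (cap k Tl Tm : ℕ) (s : ℝ) : ∑ w ∈ GW cap k Tl Tm, wwt w * tau s w ≤ W cap k s := by
  unfold W GW
  apply sum_le_sum_of_subset_of_nonneg (filter_subset _ _)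
  intro w _ _
  exact mul_nonneg (wwt_nonneg w) (Nat.cast_nonneg _)

theorem FW_length {cap k : ℕ} {w : List ℕ} (hw : w ∈ FW cap k) : w.length = k := (FW_props hw).1

theorem W_GW_ge (cap k Tl Tm : ℕ) (s : ℝ) :
    W cap k s - k * (1 - ∑ w ∈ GW cap k Tl Tm, wwt w) ≤ ∑ w ∈ GW cap k Tl Tm, wwt w * tau s w := by
  have h2 := sum_wwt_le cap k
  unfold W
  rw [sum_GW_split (f := fun w => wwt w * tau s w), sum_GW_split (f := wwt)]
  have h3 : ∑ w ∈ (FW cap k).filter (fun w => ¬ (Tl ≤ w.sum ∧ w.sum ≤ Tm)), wwt w * tau s w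
      ≤ ∑ w ∈ (FW cap k).filter (fun w => ¬ (Tl ≤ w.sum ∧ w.sum ≤ Tm)), wwt w * (k : ℝ) := by
    apply sum_le_sum
    intro w hw
    apply mul_le_mul_of_nonneg_left _ (wwt_nonneg w)
    have := tau_le w s
    rw [FW_length (mem_filter.1 hw).1] at this
    exact_mod_cast this
  rw [← sum_mul] at h3
  have h4 : (0 : ℝ) ≤ k := Nat.cast_nonneg _
  nlinarith

theorem R_le (k : ℕ) {s t : ℝ} (hs0 : 0 ≤ s) (hs : s ≤ 0.2425 * k) (hst : s + k * Real.log 3 ≤ t) :
    R (3 * k) k s ≤ t * (1 - ∑ w ∈ GW (3 * k) k ((39 * k + 19) / 20) (41 * k / 20), wwt w) := by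
  have hl2 := Real.log_two_gt_d9
  have hl3 := log3_lt
  have hl3' := log3_gt
  have ht : 0 ≤ t := by
    have : 0 ≤ (k : ℝ) * Real.log 3 := by positivity
    linarith
  unfold R
  have h0 := sum_GW_split (3 * k) k ((39 * k + 19) / 20) (41 * k / 20)
    (fun w => wwt w * max 0 (s + k * Real.log 3 - w.sum * Real.log 2))
  have h1 : ∑ w ∈ GW (3 * k) k ((39 * k + 19) / 20) (41 * k / 20),
      wwt w * max 0 (s + k * Real.log 3 - w.sum * Real.log 2) = 0 := by
    apply sum_eq_zero
    intro w hw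
    unfold GW at hw
    rw [mem_filter] at hw
    have h2 : 39 * k ≤ 20 * w.sum := by omega
    have h3 : (39 : ℝ) * k ≤ 20 * w.sum := by exact_mod_cast h2
    have h4 : (39 / 20 * k) * 0.6931471803 ≤ (w.sum : ℝ) * Real.log 2 := by
      apply mul_le_mul (by linarith) hl2.le (by norm_num) (Nat.cast_nonneg _)
    have h5 : (k : ℝ) * Real.log 3 ≤ k * 1.1091 := mul_le_mul_of_nonneg_left hl3 (Nat.cast_nonneg _)
    rw [max_eq_left (by
      have : (0 : ℝ) ≤ k := Nat.cast_nonneg _
      linarith), mul_zero]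
  rw [h1] at h0
  have h6 := sum_GW_split (3 * k) k ((39 * k + 19) / 20) (41 * k / 20) wwt
  have h7 := sum_wwt_le (3 * k) k
  have h8 : ∑ w ∈ (FW (3 * k) k).filter (fun w => ¬ ((39 * k + 19) / 20 ≤ w.sum ∧ w.sum ≤ 41 * k / 20)),
      wwt w * max 0 (s + k * Real.log 3 - w.sum * Real.log 2)
      ≤ ∑ w ∈ (FW (3 * k) k).filter (fun w => ¬ ((39 * k + 19) / 20 ≤ w.sum ∧ w.sum ≤ 41 * k / 20)),
        wwt w * t := by
    apply sum_le_sum
    intro w _
    apply mul_le_mul_of_nonneg_left _ (wwt_nonneg w)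
    have : 0 ≤ (w.sum : ℝ) * Real.log 2 := by positivity
    exact max_le ht (by linarith)
  rw [← sum_mul] at h8
  nlinarith

/-- the number of steps near `y`, lower bound -/
theorem low_near {Λ : ℝ} (hΛ : c0 < Λ) : ∃ D : ℝ, 0 < D ∧ ∀ y A : ℝ, 1 ≤ y → 1 ≤ A → 1000 ≤ Real.log A →
    Real.log y ≤ Real.log A → Real.log A ≤ 1.1 * Real.log y → PLow Λ y A D := by
  classical
  have hΛ0 : 0 < Λ := c0_pos.trans hΛ
  obtain ⟨C, hC, hM⟩ := mass_bound20 20 le_rfl 1
  have hc := c0_pos
  refine ⟨c0 * C + C + 1 + 10 * (Λ + 2), by positivity, ?_⟩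
  intro y A hy hA ht hyA hAy m hm u v hu
  have hA0 : 0 < A := by linarith
  have hy0 : 0 < y := by linarith
  obtain ⟨c, hcls⟩ := cls_unit_all A (2 * A) m hu v
  simp only [hcls]
  set t := Real.log A with htdef
  have htpos : 0 < t := by linarith
  set k := ⌊t / 2⌋₊ with hk
  have hk1 : (k : ℝ) ≤ t / 2 := Nat.floor_le (by linarith)
  have hk2 : t / 2 - 1 ≤ k := by linarith [Nat.lt_floor_add_one (t / 2)]
  have hk1N : 10 ≤ k := by
    have : (10 : ℝ) ≤ k := by linarith
    exact_mod_cast this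
  set L := ⌈Λ * t⌉₊ with hL
  have hL1 : Λ * t ≤ L := Nat.le_ceil _
  have hL2 : (L : ℝ) ≤ (Λ + 1) * t := by
    have := Nat.ceil_lt_add_one (by positivity : 0 ≤ Λ * t)
    rw [← hL] at this
    linarith
  have hkL : k ≤ L := by
    have : (k : ℝ) ≤ L := by
      have h1 : c0 * t ≤ Λ * t := mul_le_mul_of_nonneg_right hΛ.le htpos.le
      have h2 : 1 ≤ c0 := by
        unfold c0
        rw [le_div_iff₀ den_pos]
        have := log3_gt
        have := Real.log_two_lt_d9
        linarith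
      nlinarith
    exact_mod_cast this
  set G := GW (3 * k) k ((39 * k + 19) / 20) (41 * k / 20) with hG
  set s := t - Real.log y with hs
  have hs0 : 0 ≤ s := by linarith
  have hs1 : s ≤ t / 11 := by linarith
  have hl3 := log3_lt
  have hl3' := log3_gt
  have hsS : s + k * Real.log 3 ≤ t := by
    have h5 : (k : ℝ) * Real.log 3 ≤ k * 1.1091 := mul_le_mul_of_nonneg_left hl3 (Nat.cast_nonneg _)
    linarith
  have hcnt := count_le hA0.le (3 * k) k m ((39 * k + 19) / 20) (41 * k / 20) L (by omega) c (Bs y)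
    (fun w => (L : ℝ) - tau s w) (by
      intro w hw M hM
      unfold GW at hw
      rw [mem_filter] at hw
      obtain ⟨hlen, hlet⟩ := FW_props hw.1
      obtain ⟨x, hx, hV⟩ := XX_word hlen hM
      have hne : w ≠ [] := by
        intro h
        rw [h] at hlen; simp at hlen; omega
      have hMo := Vw_odd_left odd_one hlet hne hV
      rw [mem_XX] at hM
      have hsM : y * Real.exp s ≤ M := by
        rw [hs, Real.exp_sub, Real.exp_log hy0, htdef, Real.exp_log hA0]
        have : y * (A / y) = A := by field_simp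
        rw [this]
        exact hM.1.1
      have hlow := tau_low hy0 w hlet M x hMo hx hV s hsM
      have hτL : tau s w ≤ L := (tau_le w s).trans (by omega)
      have hsub : ((range L).filter fun j => M ∈ Bs y j) ⊆ Ico (tau s w) L := by
        intro j hj
        rw [mem_filter, mem_range] at hj
        rw [mem_Ico]
        refine ⟨?_, hj.1⟩
        by_contra hcon
        rw [not_le] at hcon
        obtain ⟨i, hi, h1⟩ := hj.2
        have := hlow i (by omega)
        linarith
      have h2 := card_le_card hsub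
      rw [Nat.card_Ico] at h2
      have h3 : (((range L).filter fun j => M ∈ Bs y j).card : ℝ) ≤ ((L - tau s w : ℕ) : ℝ) := by
        exact_mod_cast h2
      rw [Nat.cast_sub hτL] at h3
      exact h3)
  rw [← hG] at hcnt
  refine hcnt.trans ?_
  set Y := A / (2 * 3 ^ m) with hY
  have hY0 : 0 < Y := by positivity
  -- the sum over the words
  have h1 : ∑ w ∈ G, ((XX 1 A k m c w).card : ℝ) * ((L : ℝ) - tau s w)
      = L * ∑ w ∈ G, ((XX 1 A k m c w).card : ℝ) - ∑ w ∈ G, ((XX 1 A k m c w).card : ℝ) * tau s w := by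
    rw [mul_sum, ← sum_sub_distrib]
    apply sum_congr rfl
    intro w _
    ring
  rw [h1]
  have hτk : ∀ w ∈ G, (tau s w : ℝ) ≤ k := by
    intro w hw
    rw [hG] at hw
    unfold GW at hw
    have := tau_le w s
    rw [FW_length (mem_filter.1 hw).1] at this
    exact_mod_cast this
  have h2 : Y * ∑ w ∈ G, wwt w * tau s w - k * G.card ≤ ∑ w ∈ G, ((XX 1 A k m c w).card : ℝ) * tau s w := by
    have h3 : (k : ℝ) * G.card = ∑ w ∈ G, (k : ℝ) := by rw [sum_const, nsmul_eq_mul, mul_comm]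
    rw [h3, mul_sum, ← sum_sub_distrib]
    apply sum_le_sum
    intro w hw
    have h4 := XX_card 1 (A := A) k m c w
    rw [← hY] at h4
    have h5 := hτk w hw
    have h6 : (0 : ℝ) ≤ tau s w := Nat.cast_nonneg _
    nlinarith
  have h3 := W_GW_ge (3 * k) k ((39 * k + 19) / 20) (41 * k / 20) s
  rw [← hG] at h3
  set μ := ∑ w ∈ G, wwt w with hμ
  have hμ1 : 0 ≤ 1 - μ := mass_nonneg _ _ _ _
  have hμ2 : 1 - μ ≤ C / (10 * t) := by
    have h4 := hM (10 * t) (by linarith) k (by rw [hk]; congr 1; ring)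
    rw [pow_one] at h4
    refine le_trans ?_ h4
    rw [hμ, hG]
    have h5 : Tlo 20 k = (39 * k + 19) / 20 := by unfold Tlo; norm_num
    have h6 : Thi 20 k = 41 * k / 20 := by unfold Thi; norm_num
    rw [h5, h6]
  have hμt : t * (1 - μ) ≤ C / 10 := by
    have h4 := mul_le_mul_of_nonneg_left hμ2 htpos.le
    have h5 : t * (C / (10 * t)) = C / 10 := by field_simp
    linarith
  have h4 := W_lower (3 * k) k (S := t) htpos.le k le_rfl s hsS
  have h5 := R_le k hs0 (t := t) (by linarith) hsS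
  rw [← hG, ← hμ] at h5
  have h6 := pow8 k hk1N
  have h7 : (k : ℝ) * ((1 / 2) ^ (3 * k) * (k + c0 * t)) ≤ 1 := by
    refine le_trans ?_ h6
    have h8 : (k : ℝ) + c0 * t ≤ 9 * k + 8 := by
      have : c0 * t ≤ 4 * t := mul_le_mul_of_nonneg_right c0_lt htpos.le
      linarith
    calc (k : ℝ) * ((1 / 2) ^ (3 * k) * (k + c0 * t)) = (1 / 2) ^ (3 * k) * (k * (k + c0 * t)) := by ring
      _ ≤ _ := by
        apply mul_le_mul_of_nonneg_left _ (by positivity)
        exact mul_le_mul_of_nonneg_left h8 (Nat.cast_nonneg _)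
  have h8 : c0 * s - (c0 * C + C + 1) ≤ ∑ w ∈ G, wwt w * tau s w := by
    have h9 : c0 * R (3 * k) k s ≤ c0 * (C / 10) := mul_le_mul_of_nonneg_left (by linarith) hc.le
    have h10 : (k : ℝ) * (1 - μ) ≤ C / 10 := by
      refine le_trans ?_ hμt
      exact mul_le_mul_of_nonneg_right (by linarith) hμ1
    have h11 : 0 ≤ c0 * C := by positivity
    linarith
  -- the errors
  have hGc := GW_card (3 * k) k ((39 * k + 19) / 20) (41 * k / 20)
  rw [← hG] at hGc
  have h9 : (L : ℝ) + k * G.card ≤ 10 * (Λ + 2) * Y := by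
    have h10 := pow_tm_le htpos.le hk1
    have h11 := pow_m_le ht hm
    have h12 := exp_neg_le 1 (by norm_num : (0 : ℝ) < 5) htpos
    rw [Nat.factorial_one, Nat.cast_one, one_mul, pow_one, pow_one] at h12
    have h13 : (L : ℝ) + k * G.card ≤ ((Λ + 2) * t) * Real.exp (0.7106 * t) := by
      have h14 : (k : ℝ) * G.card ≤ t * Real.exp (0.7106 * t) := by
        apply mul_le_mul (by linarith) (hGc.trans h10) (Nat.cast_nonneg _) htpos.le
      have h15 : 1 ≤ Real.exp (0.7106 * t) := Real.one_le_exp (by positivity)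
      have h16 : (L : ℝ) ≤ (Λ + 1) * t * Real.exp (0.7106 * t) := by
        refine hL2.trans ?_
        have : 0 ≤ (Λ + 1) * t := by positivity
        nlinarith
      linarith
    refine h13.trans ?_
    rw [hY, mul_div_assoc', le_div_iff₀ (by positivity)]
    have h14 : A = Real.exp t := (Real.exp_log hA0).symm
    calc (Λ + 2) * t * Real.exp (0.7106 * t) * (2 * 3 ^ m)
        ≤ (Λ + 2) * t * Real.exp (0.7106 * t) * (2 * Real.exp (0.05 * t)) := by
          apply mul_le_mul_of_nonneg_left _ (by positivity)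
          linarith
      _ = 2 * (Λ + 2) * t * (Real.exp (0.7106 * t) * Real.exp (0.05 * t)) := by ring
      _ = 2 * (Λ + 2) * t * Real.exp (0.7106 * t + 0.05 * t) := by rw [← Real.exp_add]
      _ ≤ 2 * (Λ + 2) * t * Real.exp (-(t / 5) + t) := by
          apply mul_le_mul_of_nonneg_left _ (by positivity)
          apply Real.exp_le_exp.2
          linarith
      _ = 2 * (Λ + 2) * t * Real.exp (-(t / 5)) * Real.exp t := by rw [Real.exp_add]; ring
      _ ≤ 2 * (Λ + 2) * t * (5 / t) * Real.exp t := by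
          apply mul_le_mul_of_nonneg_right _ (Real.exp_pos _).le
          exact mul_le_mul_of_nonneg_left h12 (by positivity)
      _ = 10 * (Λ + 2) * A := by rw [h14]; field_simp; ring
  have h10 : (c0 * s - (c0 * C + C + 1)) * Y ≤ Y * ∑ w ∈ G, wwt w * tau s w := by
    have := mul_le_mul_of_nonneg_left h8 hY0.le
    linarith
  have h11 : ((L : ℝ) - c0 * s + (c0 * C + C + 1 + 10 * (Λ + 2))) * Y
      = L * Y - (c0 * s - (c0 * C + C + 1)) * Y + 10 * (Λ + 2) * Y := by ring
  rw [h11]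
  have h12 : L * ∑ w ∈ G, ((XX 1 A k m c w).card : ℝ) - ∑ w ∈ G, ((XX 1 A k m c w).card : ℝ) * tau s w
      + L * (Y + 1 - ∑ w ∈ G, ((XX 1 A k m c w).card : ℝ))
      = L * Y + L - ∑ w ∈ G, ((XX 1 A k m c w).card : ℝ) * tau s w := by ring
  rw [h12]
  linarith

/-- THE LOWER BOUND, all scales -/
theorem low_main {Λ : ℝ} (hΛ : c0 < Λ) : ∃ D : ℝ, 0 < D ∧ ∀ y A : ℝ, 1 ≤ y → 1 ≤ A → PLow Λ y A D := by
  have hΛ0 : 0 < Λ := c0_pos.trans hΛ
  obtain ⟨C, t0, hC, ht0, h⟩ := low_all hΛ
  obtain ⟨D₁, hD₁, h₁⟩ := low_near hΛ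
  have hc := c0_pos
  set D₀ := c0 * t0 + 5 * (2 * Λ + 1) with hD₀
  have hD₀0 : 0 < D₀ := by positivity
  refine ⟨max D₀ D₁ + C, by positivity, fun y A hy hA => ?_⟩
  apply h y (max D₀ D₁) hy (le_max_of_le_left hD₀0.le) _ A hA
  intro A' hA' hor
  have hA'0 : 0 < A' := by linarith
  by_cases hcase : Real.log A' ≤ t0 ∨ Real.log A' ≤ Real.log y
  · exact (low_base hΛ0 t0 (by linarith) y A' hy hA' hcase).mono hA'0 (le_max_left _ _)
  · push Not at hcase
    rcases hor with h2 | h2
    · exact absurd h2 (not_le.2 hcase.1)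
    · exact (h₁ y A' hy hA' (by linarith) hcase.2.le h2).mono hA'0 (le_max_right _ _)

end Pool.Agent.TH237.AV
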