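import Pool.Agent.TH237.AV.Walk

set_option autoImplicit false

/-! The scales near `y`: the number of steps to values `≤ y` is decided by the first letters. -/

namespace Pool.Agent.TH237.AV

open Finset Pool.Agent.H320R2.PD Pool.Agent.H499R2.ND

/-- a class `u x ≡ v` is a class `x ≡ c` -/
theorem cls_unit_all (a b : ℝ) (m : ℕ) {u : ℤ} (hu : IsCoprime u 3) (v : ℤ) :
    ∃ c : ℤ, ∀ S : Set ℤ, cls S a b m u v = cls S a b m 1 c := by
  obtain ⟨p, q, hpq⟩ : IsCoprime u ((3 : ℤ) ^ m) := hu.pow_right
  refine ⟨p * v, fun S => ?_⟩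
  ext x
  rw [mem_cls, mem_cls]
  have key : (3 : ℤ) ^ m ∣ u * x - v ↔ (3 : ℤ) ^ m ∣ 1 * x - p * v := by
    have hcop : IsCoprime ((3 : ℤ) ^ m) u := ⟨q, p, by linarith⟩
    constructor
    · intro h
      apply hcop.dvd_of_dvd_mul_left
      have : u * (1 * x - p * v) = (u * x - v) + 3 ^ m * (q * v) := by
        have h1 : u * p = 1 - q * 3 ^ m := by linarith
        calc u * (1 * x - p * v) = u * x - (u * p) * v := by ring
          _ = _ := by rw [h1]; ring
      rw [this]
      exact dvd_add h (dvd_mul_right _ _)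
    · intro h
      have : u * x - v = u * (1 * x - p * v) - 3 ^ m * (q * v) := by
        have h1 : u * p = 1 - q * 3 ^ m := by linarith
        have h2 : u * (1 * x - p * v) = u * x - (u * p) * v := by ring
        rw [h2, h1]; ring
      rw [this]
      exact dvd_sub (h.mul_left u) (dvd_mul_right _ _)
  rw [key]

theorem XX_card_le (d : ℤ) {A : ℝ} (hA : 0 ≤ A) (k m : ℕ) (c : ℤ) (w : List ℕ) :
    ((XX d A k m c w).card : ℝ) ≤ A / (2 * 3 ^ m) * wwt w + 1 := by
  obtain ⟨c', hc'⟩ := crt (w.sum + 1) m (g := 3 ^ k) (Odd.pow (by decide)) isCoprime_one_left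
    (2 ^ w.sum - d * Wo w) c
  have heq : XX d A k m c w = ap A (2 * A) (2 ^ (w.sum + 1) * 3 ^ m) c' := by
    ext M; rw [mem_XX, mem_ap, hc']
  rw [heq]
  have := ap_card_le (by linarith : A ≤ 2 * A) (q := 2 ^ (w.sum + 1) * 3 ^ m) (by positivity) c'
  refine le_trans this (le_of_eq ?_)
  unfold wwt
  push_cast
  rw [one_div, inv_pow, pow_succ]
  field_simp
  ring

open scoped Classical in
/-- counting with the words -/
theorem count_le {A : ℝ} (hA : 0 ≤ A) (cap k m Tl Tm L : ℕ) (hk : 1 ≤ k) (c : ℤ) (P : ℕ → Set ℤ)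
    (b : List ℕ → ℝ)
    (hb : ∀ w ∈ GW cap k Tl Tm, ∀ M ∈ XX 1 A k m c w, (((range L).filter fun j => M ∈ P j).card : ℝ) ≤ b w) :
    ∑ j ∈ range L, ((cls (P j) A (2 * A) m 1 c).card : ℝ)
      ≤ ∑ w ∈ GW cap k Tl Tm, ((XX 1 A k m c w).card : ℝ) * b w
        + L * (A / (2 * 3 ^ m) + 1 - ∑ w ∈ GW cap k Tl Tm, ((XX 1 A k m c w).card : ℝ)) := by
  set G := GW cap k Tl Tm with hG
  set All := cls Set.univ A (2 * A) m 1 c with hAll
  have hd : Odd (1 : ℤ) := odd_one
  have hGprop : ∀ w ∈ G, w.length = k ∧ (∀ e ∈ w, 1 ≤ e) := by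
    intro w hw
    rw [hG] at hw; unfold GW at hw
    rw [mem_filter] at hw
    exact FW_props hw.1
  have hne : ∀ w ∈ G, w ≠ [] := by
    intro w hw h
    have := (hGprop w hw).1
    rw [h] at this; simp at this; omega
  have hXall : ∀ w ∈ G, XX 1 A k m c w ⊆ All := by
    intro w hw M hM
    obtain ⟨x, hx, hV⟩ := XX_word (hGprop w hw).1 hM
    have hMo := Vw_odd_left hd (hGprop w hw).2 (hne w hw) hV
    rw [hAll, mem_cls]
    rw [mem_XX] at hM
    exact ⟨hM.1, hMo, Set.mem_univ _, hM.2.2⟩
  have hdisj : (G : Set (List ℕ)).PairwiseDisjoint (fun w => XX 1 A k m c w) := by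
    intro w hw w' hw' hww
    rw [Function.onFun, Finset.disjoint_left]
    intro M hM hM'
    apply hww
    have hw1 := hGprop w (mem_coe.1 hw)
    have hw2 := hGprop w' (mem_coe.1 hw')
    obtain ⟨x, hx, hV⟩ := XX_word hw1.1 hM
    obtain ⟨x', hx', hV'⟩ := XX_word hw2.1 hM'
    exact word_unique hd w hw1.2 w' hw2.2 (hw1.1.trans hw2.1.symm) M x x' hx hx' hV hV'
  have hdouble : ∑ j ∈ range L, ((cls (P j) A (2 * A) m 1 c).card : ℝ)
      = ∑ M ∈ All, (((range L).filter fun j => M ∈ P j).card : ℝ) := by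
    have h1 : ∀ j, ((cls (P j) A (2 * A) m 1 c).card : ℝ) = ∑ M ∈ All, (if M ∈ P j then (1 : ℝ) else 0) := by
      intro j
      rw [← natCast_card_filter]
      congr 2
      ext M
      rw [mem_filter, hAll, mem_cls, mem_cls]
      simp only [Set.mem_univ, true_and]
      tauto
    have h2 : ∀ M : ℤ, (((range L).filter fun j => M ∈ P j).card : ℝ)
        = ∑ j ∈ range L, (if M ∈ P j then (1 : ℝ) else 0) := fun M => natCast_card_filter _ _
    simp only [h1, h2]
    exact sum_comm
  rw [hdouble]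
  have hUsub : (G.biUnion fun w => XX 1 A k m c w) ⊆ All := biUnion_subset.2 hXall
  rw [← sum_sdiff hUsub, sum_biUnion hdisj]
  have hAllcard : (All.card : ℝ) ≤ A / (2 * 3 ^ m) + 1 := by
    have := cls_card_le Set.univ (by linarith : A ≤ 2 * A) m isCoprime_one_left c
    rw [show 2 * A - A = A by ring] at this
    exact this
  have h3 : ((All \ G.biUnion fun w => XX 1 A k m c w).card : ℝ)
      = All.card - ∑ w ∈ G, ((XX 1 A k m c w).card : ℝ) := by
    have h4 : (All \ G.biUnion fun w => XX 1 A k m c w).card + (G.biUnion fun w => XX 1 A k m c w).card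
        = All.card := card_sdiff_add_card_eq_card hUsub
    rw [card_biUnion hdisj] at h4
    have h5 : ((All \ G.biUnion fun w => XX 1 A k m c w).card : ℝ)
        + ∑ w ∈ G, ((XX 1 A k m c w).card : ℝ) = All.card := by exact_mod_cast h4
    linarith
  have h6 : ∑ M ∈ All \ G.biUnion (fun w => XX 1 A k m c w), (((range L).filter fun j => M ∈ P j).card : ℝ)
      ≤ L * (A / (2 * 3 ^ m) + 1 - ∑ w ∈ G, ((XX 1 A k m c w).card : ℝ)) := by
    calc ∑ M ∈ All \ G.biUnion (fun w => XX 1 A k m c w), (((range L).filter fun j => M ∈ P j).card : ℝ)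
        ≤ ∑ M ∈ All \ G.biUnion (fun w => XX 1 A k m c w), (L : ℝ) := by
          apply sum_le_sum
          intro M _
          have := card_filter_le (range L) (fun j => M ∈ P j)
          rw [card_range] at this
          exact_mod_cast this
      _ = L * ((All \ G.biUnion fun w => XX 1 A k m c w).card : ℝ) := by
          rw [sum_const, nsmul_eq_mul, mul_comm]
      _ ≤ _ := by
          apply mul_le_mul_of_nonneg_left _ (Nat.cast_nonneg _)
          rw [h3]
          linarith
  have h7 : ∑ w ∈ G, ∑ M ∈ XX 1 A k m c w, (((range L).filter fun j => M ∈ P j).card : ℝ)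
      ≤ ∑ w ∈ G, ((XX 1 A k m c w).card : ℝ) * b w := by
    apply sum_le_sum
    intro w hw
    calc ∑ M ∈ XX 1 A k m c w, (((range L).filter fun j => M ∈ P j).card : ℝ)
        ≤ ∑ M ∈ XX 1 A k m c w, b w := sum_le_sum fun M hM => hb w hw M hM
      _ = _ := by rw [sum_const, nsmul_eq_mul]
  linarith

/-- while the walk from `s` is positive the orbit stays above `y` -/
theorem tau_low {y : ℝ} (hy : 0 < y) (w : List ℕ) : (∀ a ∈ w, 1 ≤ a) → ∀ M x : ℤ, Odd M → Odd x →
    Vw 1 w M x → ∀ s : ℝ, y * Real.exp s ≤ M → ∀ i < tau s w, y < ((Cs^[i] M : ℤ) : ℝ) := by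
  induction w using List.reverseRecOn with
  | nil =>
    intro _ M x _ _ _ s _ i hi
    rw [tau_nil] at hi
    omega
  | append_singleton u e ih =>
    intro hw M x hM hx h s hs i hi
    have hu : ∀ a ∈ u, 1 ≤ a := fun a ha => hw a (by simp [ha])
    obtain ⟨M₁, hM₁, h1, h2⟩ := Vw_snoc odd_one hu hx h
    rw [tau_snoc] at hi
    split_ifs at hi with h0
    · omega
    · rw [not_le] at h0
      cases i with
      | zero =>
        simp only [Function.iterate_zero, id]
        have h3 : 1 < Real.exp s := by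
          rw [← Real.exp_zero]; exact Real.exp_lt_exp.2 h0
        nlinarith
      | succ i =>
        rw [Function.iterate_succ_apply, Cs_eq hM₁ h1]
        apply ih hu M₁ x hM₁ hx h2 (s + Real.log 3 - e * Real.log 2) _ i (by omega)
        rw [Real.exp_sub, Real.exp_add, Real.exp_log (by norm_num), ← Real.log_pow,
          Real.exp_log (by positivity)]
        rw [← mul_div_assoc, div_le_iff₀ (by positivity)]
        have h3 : (3 : ℝ) * M + 1 = 2 ^ e * M₁ := by exact_mod_cast h1
        nlinarith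

/-- if the walk from `s` ends at a value `≤ 0` then the orbit is small at the time `tau` -/
theorem tau_up {z : ℝ} (hz : 0 ≤ z) (w : List ℕ) : (∀ a ∈ w, 1 ≤ a) → ∀ M x : ℤ, Odd M → Odd x →
    Vw 1 w M x → ∀ s b : ℝ, 0 ≤ b → (M : ℝ) ≤ z * Real.exp s + b →
    s + w.length * Real.log 3 - (w.sum : ℕ) * Real.log 2 ≤ 0 →
    ((Cs^[tau s w] M : ℤ) : ℝ) ≤ z + ((3 / 2) ^ w.length * (b + 1) - 1) := by
  induction w using List.reverseRecOn with
  | nil =>
    intro _ M x _ _ _ s b hb hs h0
    rw [tau_nil]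
    simp only [List.length_nil, List.sum_nil, Function.iterate_zero, id, pow_zero, one_mul] at h0 ⊢
    have h3 : Real.exp s ≤ 1 := by
      rw [Real.exp_le_one_iff]
      simpa using h0
    have := mul_le_mul_of_nonneg_left h3 hz
    linarith
  | append_singleton u e ih =>
    intro hw M x hM hx h s b hb hs h0
    have hu : ∀ a ∈ u, 1 ≤ a := fun a ha => hw a (by simp [ha])
    obtain ⟨M₁, hM₁, h1, h2⟩ := Vw_snoc odd_one hu hx h
    rw [tau_snoc]
    split_ifs with hs0
    · simp only [Function.iterate_zero, id]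
      have h3 : Real.exp s ≤ 1 := Real.exp_le_one_iff.2 hs0
      have h4 := mul_le_mul_of_nonneg_left h3 hz
      have h5 : (1 : ℝ) ≤ (3 / 2) ^ (u ++ [e]).length := one_le_pow₀ (by norm_num)
      nlinarith
    · rw [add_comm 1, Function.iterate_succ_apply, Cs_eq hM₁ h1]
      have he : 1 ≤ e := hw e (by simp)
      have h2e : (2 : ℝ) ≤ 2 ^ e := by
        calc (2 : ℝ) = 2 ^ 1 := by norm_num
          _ ≤ 2 ^ e := pow_le_pow_right₀ (by norm_num) he
      have h3 := ih hu M₁ x hM₁ hx h2 (s + Real.log 3 - e * Real.log 2) ((3 * b + 1) / 2)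
        (by linarith) (by
          rw [Real.exp_sub, Real.exp_add, Real.exp_log (by norm_num), ← Real.log_pow,
            Real.exp_log (by positivity)]
          have h3 : (3 : ℝ) * M + 1 = 2 ^ e * M₁ := by exact_mod_cast h1
          have h4 : (M₁ : ℝ) = (3 * M + 1) / 2 ^ e := by
            rw [h3]; field_simp
          rw [h4]
          have h5 : (3 * (M : ℝ) + 1) / 2 ^ e ≤ (3 * (z * Real.exp s + b) + 1) / 2 ^ e :=
            div_le_div_of_nonneg_right (by linarith) (by positivity)
          have h6 : (3 * b + 1) / 2 ^ e ≤ (3 * b + 1) / 2 :=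
            div_le_div_of_nonneg_left (by linarith) (by norm_num) h2e
          have h7 : (3 * (z * Real.exp s + b) + 1) / 2 ^ e
              = z * (Real.exp s * 3 / 2 ^ e) + (3 * b + 1) / 2 ^ e := by ring
          linarith)
        (by
          rw [List.length_append, List.length_singleton, List.sum_append, List.sum_singleton,
            Nat.cast_add, Nat.cast_add, Nat.cast_one] at h0
          linarith)
      refine h3.trans (le_of_eq ?_)
      rw [List.length_append, List.length_singleton, pow_succ]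
      ring

end Pool.Agent.TH237.AV
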