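import Pool.Agent.TH237.AV.Mean

set_option autoImplicit false

/-! The error bound of one stage with `k = ⌊log A / 20⌋`. -/

namespace Pool.Agent.TH237.AV

open Finset Pool.Agent.H320R2.PD Pool.Agent.H499R2.ND

theorem err_bound20 (B : ℕ) (d : ℤ) : ∃ C : ℝ, 0 < C ∧ ∀ A : ℝ, 0 < A → 1000 ≤ Real.log A → ∀ k m m' : ℕ,
    (m : ℝ) ^ 2 ≤ Real.log A → k = ⌊Real.log A / 20⌋₊ → m' = ⌊Real.sqrt (0.8 * Real.log A)⌋₊ →
    Err d A k m m' ≤ C / (Real.log A) ^ B := by
  obtain ⟨Cm, hCm, hmix⟩ := mix (2 * B + 2)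
  refine ⟨2 * (Cm * (2 ^ (2 * B + 2) + 24 ^ (2 * B + 2))) + 4 * (B.factorial * 256000 ^ B)
    + (|(d : ℝ)| + 3) * 2 * (B.factorial * 5 ^ B), by positivity, ?_⟩
  intro A hA ht k m m' hm hk hm'
  set t := Real.log A with htdef
  have htpos : 0 < t := by linarith
  have hexpA : Real.exp t = A := Real.exp_log hA
  have hk1 : (k : ℝ) ≤ t / 20 := by rw [hk]; exact Nat.floor_le (by linarith)
  have hk1' : (k : ℝ) ≤ t / 2 := by linarith
  have hk2 : t / 20 - 1 ≤ k := by rw [hk]; linarith [Nat.lt_floor_add_one (t / 20)]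
  have hkpos : (1 : ℝ) ≤ k := by linarith
  have hk1N : 1 ≤ k := by exact_mod_cast hkpos
  set r := Real.sqrt t with hr
  have hrsq : r ^ 2 = t := Real.sq_sqrt htpos.le
  have hr30 : 30 ≤ r := by
    apply Real.le_sqrt_of_sq_le; linarith
  have hmr : (m : ℝ) ≤ r := Real.le_sqrt_of_sq_le hm
  have hrt : 30 * r ≤ t := by nlinarith
  have hs8 : Real.sqrt (0.8 * t) ≥ 0.8 * r := by
    apply Real.le_sqrt_of_sq_le
    rw [mul_pow, hrsq]; linarith
  have hs8' : Real.sqrt (0.8 * t) ≤ r := Real.sqrt_le_sqrt (by linarith)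
  have hm'1 : r / 2 ≤ m' := by
    rw [hm']; linarith [Nat.lt_floor_add_one (Real.sqrt (0.8 * t))]
  have hm'2 : (m' : ℝ) ≤ r := by
    rw [hm']; exact (Nat.floor_le (Real.sqrt_nonneg _)).trans hs8'
  have hm'pos : 1 ≤ m' := by
    have : (1 : ℝ) ≤ m' := by linarith
    exact_mod_cast this
  have hm'k : m' ≤ k := by
    have : (m' : ℝ) ≤ k := by linarith
    exact_mod_cast this
  -- exponentially small quantities
  have hexp5 := exp_neg_le B (by norm_num : (0 : ℝ) < 5) htpos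
  have hexpb := exp_neg_le B (by norm_num : (0 : ℝ) < 256000) htpos
  have hsmall : (2 : ℝ) ^ (41 * k / 20) * (2 * 3 ^ m / A) ≤ 2 * Real.exp (-(t / 5)) := by
    have h1 := pow_tm_le htpos.le hk1'
    have h2 := pow_m_le ht hm
    have h3 : (2 : ℝ) ^ (41 * k / 20) * (2 * 3 ^ m / A)
        ≤ Real.exp (0.7106 * t) * (2 * Real.exp (0.05 * t) / Real.exp t) := by
      rw [← hexpA]
      apply mul_le_mul h1 _ (by positivity) (Real.exp_pos _).le
      apply div_le_div_of_nonneg_right _ (Real.exp_pos _).le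
      linarith
    have h4 : Real.exp (0.7106 * t) * (2 * Real.exp (0.05 * t) / Real.exp t)
        = 2 * Real.exp (0.7106 * t + 0.05 * t - t) := by
      rw [Real.exp_sub, Real.exp_add]; ring
    rw [h4] at h3
    refine h3.trans ?_
    apply mul_le_mul_of_nonneg_left _ (by norm_num)
    apply Real.exp_le_exp.2
    linarith
  have hexpsmall : Real.exp (-(t / 5)) ≤ 1 / 2 := by
    have h1 := Real.add_one_le_exp (t / 5)
    rw [Real.exp_neg, inv_eq_one_div]
    apply one_div_le_one_div_of_le (by norm_num)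
    linarith
  have hsmall1 : (2 : ℝ) ^ (41 * k / 20) * (2 * 3 ^ m / A) ≤ 1 := by linarith
  have h3mA : 0 ≤ (2 * 3 ^ m / A : ℝ) := by positivity
  have hone : (2 * 3 ^ m / A : ℝ) ≤ 2 * Real.exp (-(t / 5)) := by
    have : (1 : ℝ) ≤ 2 ^ (41 * k / 20) := one_le_pow₀ (by norm_num)
    nlinarith
  -- mixing
  have hδ := hmix k m m' (3 * k) hk1N hm'pos hm'k (le_refl _)
  set δ := ∑ T ∈ range (k * (3 * k) + 1), dev (FWT (3 * k) k T) wwt (fun w => (Wo w : ℤ)) (k + m) m'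
    with hδdef
  have hδnn : 0 ≤ δ := sum_nonneg fun _ _ => sum_nonneg fun _ _ => abs_nonneg _
  have hrpos : 0 < r := by linarith
  have hδ2 : δ ≤ (Cm * (2 ^ (2 * B + 2) + 24 ^ (2 * B + 2))) / t ^ B := by
    have e1 : ((k : ℝ) + m) ≤ t := by linarith
    have e2 : (1 / (m' : ℝ)) ^ (2 * B + 2) ≤ (2 / r) ^ (2 * B + 2) := by
      apply pow_le_pow_left₀ (by positivity)
      rw [div_le_div_iff₀ (by exact_mod_cast hm'pos) hrpos]
      linarith
    have e3 : ((m : ℝ) / k) ^ (2 * B + 2) ≤ (24 / r) ^ (2 * B + 2) := by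
      apply pow_le_pow_left₀ (by positivity)
      rw [div_le_div_iff₀ (by linarith) hrpos]
      have g1 : (m : ℝ) * r ≤ r * r := mul_le_mul_of_nonneg_right hmr hrpos.le
      have g2 : r * r = t := by rw [← hrsq]; ring
      linarith
    have e4 : t * (Cm * ((2 / r) ^ (2 * B + 2) + (24 / r) ^ (2 * B + 2)))
        = (Cm * (2 ^ (2 * B + 2) + 24 ^ (2 * B + 2))) / t ^ B := by
      have : r ^ (2 * B + 2) = t * t ^ B := by
        rw [show 2 * B + 2 = 2 * (B + 1) by ring, pow_mul, hrsq, pow_succ]; ring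
      rw [div_pow, div_pow, this]
      field_simp
    calc δ ≤ (k + m) * (Cm * ((1 / (m' : ℝ)) ^ (2 * B + 2) + ((m : ℝ) / k) ^ (2 * B + 2))) := hδ
      _ ≤ t * (Cm * ((2 / r) ^ (2 * B + 2) + (24 / r) ^ (2 * B + 2))) := by
          apply mul_le_mul e1 _ (by positivity) htpos.le
          apply mul_le_mul_of_nonneg_left _ hCm.le
          linarith
      _ = _ := e4
  -- mass
  have hmass := mass_GW k
  have hmass2 : 3 * Real.exp (-(k / 12800 : ℝ)) ≤ 4 * Real.exp (-(t / 256000)) := by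
    have h1 : Real.exp (-(k / 12800 : ℝ)) ≤ Real.exp (1 / 12800) * Real.exp (-(t / 256000)) := by
      rw [← Real.exp_add]
      apply Real.exp_le_exp.2
      linarith
    have h2 : Real.exp (1 / 12800) ≤ 4 / 3 := by
      have := Real.exp_bound_div_one_sub_of_interval (x := 1 / 12800) (by norm_num) (by norm_num)
      refine this.trans (by norm_num)
    have h3 := Real.exp_pos (-(t / 256000))
    nlinarith
  unfold Err
  rw [← hδdef]
  have hd0 : 0 ≤ |(d : ℝ)| := abs_nonneg _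
  have f1 : (1 + 2 ^ (41 * k / 20) * (2 * 3 ^ m / A)) * δ ≤ 2 * δ :=
    mul_le_mul_of_nonneg_right (by linarith) hδnn
  have f2 : (1 + (|(d : ℝ)| + 2) * 2 ^ (41 * k / 20)) * (2 * 3 ^ m / A)
      ≤ (|(d : ℝ)| + 3) * (2 * Real.exp (-(t / 5))) := by
    calc (1 + (|(d : ℝ)| + 2) * 2 ^ (41 * k / 20)) * (2 * 3 ^ m / A)
        = (2 * 3 ^ m / A) + (|(d : ℝ)| + 2) * (2 ^ (41 * k / 20) * (2 * 3 ^ m / A)) := by ring
      _ ≤ 2 * Real.exp (-(t / 5)) + (|(d : ℝ)| + 2) * (2 * Real.exp (-(t / 5))) := by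
          have := mul_le_mul_of_nonneg_left hsmall (by linarith : 0 ≤ |(d : ℝ)| + 2)
          linarith
      _ = _ := by ring
  have f3 : (|(d : ℝ)| + 3) * (2 * Real.exp (-(t / 5)))
      ≤ (|(d : ℝ)| + 3) * (2 * ((B.factorial * 5 ^ B) / t ^ B)) := by
    apply mul_le_mul_of_nonneg_left _ (by linarith)
    linarith
  have f4 : 4 * Real.exp (-(t / 256000)) ≤ 4 * ((B.factorial * 256000 ^ B) / t ^ B) := by linarith
  calc (1 + 2 ^ (41 * k / 20) * (2 * 3 ^ m / A)) * δ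
      + (1 - ∑ w ∈ GW (3 * k) k ((39 * k + 19) / 20) (41 * k / 20), wwt w)
      + (1 + (|(d : ℝ)| + 2) * 2 ^ (41 * k / 20)) * (2 * 3 ^ m / A)
      ≤ 2 * ((Cm * (2 ^ (2 * B + 2) + 24 ^ (2 * B + 2))) / t ^ B)
        + 4 * ((B.factorial * 256000 ^ B) / t ^ B)
        + (|(d : ℝ)| + 3) * (2 * ((B.factorial * 5 ^ B) / t ^ B)) := by
        linarith
    _ = _ := by ring

/-- the mass outside of the typical words -/
theorem mass_bound20 (N : ℕ) (hN : 20 ≤ N) (B : ℕ) : ∃ C : ℝ, 0 < C ∧ ∀ t : ℝ, 1000 ≤ t → ∀ k : ℕ,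
    k = ⌊t / 20⌋₊ → 1 - ∑ w ∈ GW (3 * k) k (Tlo N k) (Thi N k), wwt w ≤ C / t ^ B := by
  have hNR : (20 : ℝ) ≤ N := by exact_mod_cast hN
  set a : ℝ := 640 * (N : ℝ) ^ 2 with ha
  have ha0 : 0 < a := by positivity
  refine ⟨4 * (B.factorial * a ^ B), by positivity, ?_⟩
  intro t ht k hk
  have htpos : 0 < t := by linarith
  have hk2 : t / 20 - 1 ≤ k := by rw [hk]; linarith [Nat.lt_floor_add_one (t / 20)]
  have h2 := mass_GWN N k hN
  have h3 := exp_neg_le B ha0 htpos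
  have h4 : 3 * Real.exp (-((1 / (N : ℝ)) ^ 2 * k / 32)) ≤ 4 * Real.exp (-(t / a)) := by
    have e1 : Real.exp (-((1 / (N : ℝ)) ^ 2 * k / 32)) ≤ Real.exp (1 / 12800) * Real.exp (-(t / a)) := by
      rw [← Real.exp_add]
      apply Real.exp_le_exp.2
      have e2 : (1 / (N : ℝ)) ^ 2 * k / 32 ≥ (1 / (N : ℝ)) ^ 2 * (t / 20 - 1) / 32 := by
        have : (1 / (N : ℝ)) ^ 2 * (t / 20 - 1) ≤ (1 / (N : ℝ)) ^ 2 * k :=
          mul_le_mul_of_nonneg_left hk2 (by positivity)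
        linarith
      have e3 : (1 / (N : ℝ)) ^ 2 * (t / 20 - 1) / 32 = t / a - (1 / (N : ℝ)) ^ 2 / 32 := by
        rw [ha]; field_simp; ring
      have e4 : (1 / (N : ℝ)) ^ 2 ≤ 1 / 400 := by
        rw [one_div, inv_pow, ← one_div]
        apply one_div_le_one_div_of_le (by norm_num)
        nlinarith
      linarith
    have e5 : Real.exp (1 / 12800) ≤ 4 / 3 := by
      have := Real.exp_bound_div_one_sub_of_interval (x := 1 / 12800) (by norm_num) (by norm_num)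
      refine this.trans (by norm_num)
    have e6 := Real.exp_pos (-(t / a))
    nlinarith
  have h5 : (4 * (B.factorial * a ^ B)) / t ^ B = 4 * ((B.factorial * a ^ B) / t ^ B) := by ring
  rw [h5]
  linarith

theorem mass_nonneg (cap k Tl Tm : ℕ) : 0 ≤ 1 - ∑ w ∈ GW cap k Tl Tm, wwt w := by
  have h1 : ∑ w ∈ GW cap k Tl Tm, wwt w ≤ 1 := by
    refine le_trans ?_ (sum_wwt_le cap k)
    unfold GW
    apply sum_le_sum_of_subset_of_nonneg (filter_subset _ _)
    intro w _ _; exact wwt_nonneg w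
  linarith

end Pool.Agent.TH237.AV
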