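import Pool.Agent.H499R2.NDG2

set_option autoImplicit false

/-! The mean size of the words of length `k`. -/

namespace Pool.Agent.TH237.AV

open Finset Pool.Agent.H320R2.PD Pool.Agent.H499R2.ND

theorem sum_Icc_mean (A : ℕ) : ∑ e ∈ Icc 1 A, (1 / 2 : ℝ) ^ e * ((e : ℝ) - 2) = -(A * (1 / 2) ^ A) := by
  induction A with
  | zero => simp
  | succ A ih =>
    rw [sum_Icc_succ_top (by omega), ih, pow_succ]
    push_cast
    ring

theorem wwt_cons (e : ℕ) (v : List ℕ) : wwt (e :: v) = (1 / 2 : ℝ) ^ e * wwt v := by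
  unfold wwt
  rw [List.sum_cons, pow_add]

theorem wwt_nonneg (w : List ℕ) : 0 ≤ wwt w := by unfold wwt; positivity

theorem mean_succ (A n : ℕ) :
    ∑ w ∈ FW A (n + 1), wwt w * ((w.sum : ℝ) - 2 * ((n + 1 : ℕ) : ℝ))
      = -(A * (1 / 2) ^ A) * ∑ v ∈ FW A n, wwt v
        + (1 - (1 / 2) ^ A) * ∑ v ∈ FW A n, wwt v * ((v.sum : ℝ) - 2 * n) := by
  rw [sum_FW_succ, ← sum_Icc_mean, ← sum_Icc_half, sum_mul, sum_mul, ← sum_add_distrib]
  apply sum_congr rfl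
  intro e _
  rw [mul_sum, mul_sum, ← sum_add_distrib]
  apply sum_congr rfl
  intro v _
  rw [wwt_cons, List.sum_cons]
  push_cast
  ring

theorem mean_le (A n : ℕ) : ∑ w ∈ FW A n, wwt w * ((w.sum : ℝ) - 2 * n) ≤ 0 := by
  induction n with
  | zero => rw [sum_FW_zero]; simp
  | succ n ih =>
    rw [mean_succ]
    have h1 : 0 ≤ ∑ v ∈ FW A n, wwt v := sum_nonneg fun w _ => wwt_nonneg w
    have h2 : (1 / 2 : ℝ) ^ A ≤ 1 := pow_le_one₀ (by norm_num) (by norm_num)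
    have h3 : 0 ≤ (A : ℝ) * (1 / 2) ^ A := by positivity
    nlinarith

theorem mean_ge (A n : ℕ) :
    -(n * (A * (1 / 2) ^ A)) ≤ ∑ w ∈ FW A n, wwt w * ((w.sum : ℝ) - 2 * n) := by
  induction n with
  | zero => rw [sum_FW_zero]; simp
  | succ n ih =>
    rw [mean_succ]
    have h1 := sum_wwt_le A n
    have h2 : (1 / 2 : ℝ) ^ A ≤ 1 := pow_le_one₀ (by norm_num) (by norm_num)
    have h2' : 0 ≤ (1 / 2 : ℝ) ^ A := by positivity
    have h3 : 0 ≤ (A : ℝ) * (1 / 2) ^ A := by positivity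
    have h4 := mean_le A n
    rw [Nat.cast_succ]
    nlinarith

variable {N k : ℕ}

/-- the words of `FW` outside of `GW` -/
theorem sum_GW_split (cap k Tl Tm : ℕ) (f : List ℕ → ℝ) :
    ∑ w ∈ GW cap k Tl Tm, f w = ∑ w ∈ FW cap k, f w
      - ∑ w ∈ (FW cap k).filter (fun w => ¬ (Tl ≤ w.sum ∧ w.sum ≤ Tm)), f w := by
  unfold GW
  rw [eq_sub_iff_add_eq]
  exact sum_filter_add_sum_filter_not _ _ _

theorem size_le (cap k : ℕ) : ∀ w ∈ FW cap k, w.sum ≤ cap * k := by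
  induction k with
  | zero => intro w hw; simp [FW] at hw; simp [hw]
  | succ k ih =>
    intro w hw
    rw [FW, mem_biUnion] at hw
    obtain ⟨e, he, hw⟩ := hw
    rw [mem_image] at hw
    obtain ⟨v, hv, rfl⟩ := hw
    rw [mem_Icc] at he
    rw [List.sum_cons]
    have := ih v hv
    nlinarith

/-- upper bound for the mean over the typical words -/
theorem mean_GW_le (cap k Tl Tm : ℕ) :
    ∑ w ∈ GW cap k Tl Tm, wwt w * ((w.sum : ℝ) - 2 * k)
      ≤ 2 * k * (1 - ∑ w ∈ GW cap k Tl Tm, wwt w) := by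
  rw [sum_GW_split, sum_GW_split]
  have h1 := mean_le cap k
  have h2 := sum_wwt_le cap k
  have h3 : ∑ w ∈ (FW cap k).filter (fun w => ¬ (Tl ≤ w.sum ∧ w.sum ≤ Tm)), wwt w * (-(2 * (k : ℝ)))
      ≤ ∑ w ∈ (FW cap k).filter (fun w => ¬ (Tl ≤ w.sum ∧ w.sum ≤ Tm)), wwt w * ((w.sum : ℝ) - 2 * k) := by
    apply sum_le_sum
    intro w _
    apply mul_le_mul_of_nonneg_left _ (wwt_nonneg w)
    have : (0 : ℝ) ≤ w.sum := Nat.cast_nonneg _
    linarith
  rw [← sum_mul] at h3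
  have h4 : (0 : ℝ) ≤ k := Nat.cast_nonneg _
  nlinarith

/-- lower bound for the mean over the typical words -/
theorem mean_GW_ge (cap k Tl Tm : ℕ) (hk : 1 ≤ k) (hcap : 2 ≤ cap) :
    -(cap * k * (1 - ∑ w ∈ GW cap k Tl Tm, wwt w) + k * (cap * (1 / 2) ^ cap)) ≤
    ∑ w ∈ GW cap k Tl Tm, wwt w * ((w.sum : ℝ) - 2 * k) := by
  rw [sum_GW_split, sum_GW_split]
  have h1 := mean_ge cap k
  have h2 := sum_wwt_le cap k
  have h3 : ∑ w ∈ (FW cap k).filter (fun w => ¬ (Tl ≤ w.sum ∧ w.sum ≤ Tm)), wwt w * ((w.sum : ℝ) - 2 * k)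
      ≤ ∑ w ∈ (FW cap k).filter (fun w => ¬ (Tl ≤ w.sum ∧ w.sum ≤ Tm)), wwt w * ((cap : ℝ) * k) := by
    apply sum_le_sum
    intro w hw
    apply mul_le_mul_of_nonneg_left _ (wwt_nonneg w)
    have h5 : ((w.sum : ℕ) : ℝ) ≤ ((cap * k : ℕ) : ℝ) := by
      exact_mod_cast size_le cap k w (mem_filter.1 hw).1
    rw [Nat.cast_mul] at h5
    have : (0 : ℝ) ≤ k := Nat.cast_nonneg _
    linarith
  rw [← sum_mul] at h3
  have h4 : (0 : ℝ) ≤ k := Nat.cast_nonneg _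
  have h5 : (0 : ℝ) ≤ (cap : ℝ) * k := by positivity
  nlinarith

end Pool.Agent.TH237.AV
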