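import Pool.Agent.TH237.AV.Err

set_option autoImplicit false

/-! One stage for sums over families of sets, and the Syracuse map along words. -/

namespace Pool.Agent.TH237.AV

open Finset Pool.Agent.H320R2.PD Pool.Agent.H499R2.ND

/-- ONE STAGE, summed over a family of sets, with a bound depending on the size of the word -/
theorem stageW {N : ℕ} (hN : 20 ≤ N) {d : ℤ} (hd : Odd d) (hd3 : IsCoprime d 3) (S S' : ℕ → Set ℤ)
    (L : ℕ) {A : ℝ} (hA : 0 < A) {k m m' : ℕ} (hk : 1 ≤ k) (hm' : m' ≤ k)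
    (hpath : ∀ j < L, ∀ w ∈ GW (3 * k) k (Tlo N k) (Thi N k), ∀ M x : ℤ, Odd M → Odd x → A ≤ (M : ℝ) →
      (M : ℝ) < 2 * A → M ∈ S j → Vw d w M x → x ∈ S' j)
    (g : ℕ → ℝ)
    (h : ∀ T : ℕ, (2 * N - 1) * k ≤ N * T → N * T ≤ (2 * N + 1) * k → ∀ u v : ℤ, IsCoprime u 3 →
      ∑ j ∈ range L, ((cls (S' j) (A * 3 ^ k / 2 ^ T) (2 * (A * 3 ^ k / 2 ^ T)) m' u v).card : ℝ)
        ≤ g T * (A * 3 ^ k / 2 ^ T / (2 * 3 ^ m'))) (u v : ℤ) (hu : IsCoprime u 3) :
    ∑ j ∈ range L, ((cls (S j) A (2 * A) m u v).card : ℝ)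
      ≤ (∑ w ∈ GW (3 * k) k (Tlo N k) (Thi N k), wwt w * g w.sum + L * ErrN N d A k m m')
        * (A / (2 * 3 ^ m)) := by
  have hN0 : 0 < N := by omega
  obtain ⟨c, hc⟩ : ∃ c : ℤ, ∀ S : Set ℤ, cls S A (2 * A) m u v = cls S A (2 * A) m 1 c := by
    obtain ⟨p, q, hpq⟩ : IsCoprime u ((3 : ℤ) ^ m) := hu.pow_right
    refine ⟨p * v, fun S => ?_⟩
    ext x
    rw [mem_cls, mem_cls]
    have key : (3 : ℤ) ^ m ∣ u * x - v ↔ (3 : ℤ) ^ m ∣ 1 * x - p * v := by
      have hcop : IsCoprime ((3 : ℤ) ^ m) u := ⟨q, p, by linarith⟩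
      constructor
      · intro h
        apply hcop.dvd_of_dvd_mul_left
        have : u * (1 * x - p * v) = (u * x - v) + 3 ^ m * (q * v) := by
          have h1 : u * p = 1 - q * 3 ^ m := by linarith
          calc u * (1 * x - p * v) = u * x - (u * p) * v := by ring
            _ = _ := by rw [h1]; ring
        rw [this]
        exact dvd_add h (dvd_mul_right _ _)
      · intro h
        have : u * x - v = u * (1 * x - p * v) - 3 ^ m * (q * v) := by
          have h1 : u * p = 1 - q * 3 ^ m := by linarith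
          have h2 : u * (1 * x - p * v) = u * x - (u * p) * v := by ring
          rw [h2, h1]; ring
        rw [this]
        exact dvd_sub (h.mul_left u) (dvd_mul_right _ _)
    rw [key]
  simp only [hc]
  have hThi : Thi N k ≤ 41 * k / 20 := by
    rw [Nat.le_div_iff_mul_le (by norm_num), mul_comm]
    have h1 : N * Thi N k ≤ (2 * N + 1) * k := (le_Thi_iff hN0).1 le_rfl
    by_contra hcon
    push Not at hcon
    have h2 : (2 * N + 1) * (20 * k) ≤ 41 * N * k := by nlinarith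
    have h3 : N * (41 * k + 1) ≤ N * (20 * Thi N k) := Nat.mul_le_mul_left _ hcon
    nlinarith
  have hTm : Thi N k ≤ k * (3 * k) := by
    refine hThi.trans ?_
    nlinarith [Nat.div_mul_le_self (41 * k) 20]
  set G := GW (3 * k) k (Tlo N k) (Thi N k) with hG
  set δ := ∑ T ∈ range (k * (3 * k) + 1), dev (FWT (3 * k) k T) wwt (fun w => (Wo w : ℤ)) (k + m) m'
    with hδ
  have hδ0 : 0 ≤ δ := sum_nonneg fun _ _ => sum_nonneg fun _ _ => abs_nonneg _
  have hstep : ∀ j ∈ range L, ((cls (S j) A (2 * A) m 1 c).card : ℝ)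
      ≤ (∑ w ∈ G, ((cls (S' j) (A * 3 ^ k / 2 ^ w.sum) (2 * (A * 3 ^ k / 2 ^ w.sum)) m'
            (2 ^ w.sum) (d * Wo w)).card : ℝ)) / 3 ^ (k + m - m')
        + ErrN N d A k m m' * (A / (2 * 3 ^ m)) := by
    intro j hj
    have h1 := starG hd hd3 (S := S j) (fun _ => S' j) hA.le (3 * k) k m m' (Tlo N k) (Thi N k)
      (hpath j (mem_range.1 hj)) hk hm' hTm c
    rw [← hG, ← hδ] at h1
    refine h1.trans ?_
    have hfac : A / (2 * 3 ^ m) * (2 * 3 ^ m / A) = 1 := by field_simp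
    unfold ErrN Err
    rw [← hG, ← hδ]
    have hX : (2 : ℝ) ^ Thi N k ≤ 2 ^ (41 * k / 20) := pow_le_pow_right₀ (by norm_num) hThi
    have hmass0 := mass_nonneg (3 * k) k ((39 * k + 19) / 20) (41 * k / 20)
    set X := (2 : ℝ) ^ (41 * k / 20)
    set X' := (2 : ℝ) ^ Thi N k
    set Y := A / (2 * 3 ^ m) with hY
    set Z := 2 * 3 ^ m / A with hZ
    set μ := ∑ w ∈ G, wwt w
    set μ' := ∑ w ∈ GW (3 * k) k ((39 * k + 19) / 20) (41 * k / 20), wwt w
    have hY0 : 0 ≤ Y := by positivity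
    have e1 : ((1 + X * Z) * δ + (1 - μ') + (1 + (|(d : ℝ)| + 2) * X) * Z + (1 - μ)) * Y
        = (Y + X * (Y * Z)) * δ + Y * (1 - μ') + (1 + (|(d : ℝ)| + 2) * X) * (Y * Z) + Y * (1 - μ) := by ring
    rw [e1, hfac]
    have h2 : X' * δ ≤ X * δ := mul_le_mul_of_nonneg_right hX hδ0
    have h3 : (|(d : ℝ)| + 2) * X' ≤ (|(d : ℝ)| + 2) * X := mul_le_mul_of_nonneg_left hX (by positivity)
    have h4 : 0 ≤ Y * (1 - μ') := mul_nonneg hY0 hmass0
    linarith
  refine (sum_le_sum hstep).trans ?_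
  rw [sum_add_distrib, sum_const, card_range, nsmul_eq_mul, ← sum_div, sum_comm, add_mul, mul_assoc]
  apply add_le_add_left
  rw [div_le_iff₀ (by positivity), mul_assoc, sum_mul]
  apply sum_le_sum
  intro w hw
  rw [hG, mem_GWN hN0] at hw
  have h3 := h w.sum hw.2.1 hw.2.2 (2 ^ w.sum) (d * Wo w) (cop_two_pow _)
  refine h3.trans (le_of_eq ?_)
  have h6 : (3 : ℝ) ^ (k + m - m') * 3 ^ m' = 3 ^ k * 3 ^ m := by
    rw [← pow_add, ← pow_add]; congr 1; omega
  have h7 : (3 : ℝ) ^ k = 3 ^ (k + m - m') * 3 ^ m' / 3 ^ m := by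
    rw [h6]; field_simp
  unfold wwt
  rw [one_div, inv_pow, h7]
  field_simp

/-- the Syracuse map -/
def Cs (M : ℤ) : ℤ := (3 * M + 1) / 2 ^ padicValInt 2 (3 * M + 1)

theorem Cs_eq {M x : ℤ} {e : ℕ} (hx : Odd x) (h : 3 * M + 1 = 2 ^ e * x) : Cs M = x := by
  have hM0 : x ≠ 0 := by rintro rfl; exact absurd hx (by decide)
  have h1 : padicValInt 2 (3 * M + 1) = e := by
    rw [h, padicValInt.mul (by positivity) hM0]
    have h2 : padicValInt 2 x = 0 := padicValInt.eq_zero_of_not_dvd (by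
      intro h3
      have : (2 : ℤ) ∣ x := by exact_mod_cast h3
      exact (Int.not_even_iff_odd.2 hx) (even_iff_two_dvd.2 this))
    have h3 : padicValInt 2 ((2 : ℤ) ^ e) = e := by
      have e' : ((2 : ℤ) ^ e) = ((2 ^ e : ℕ) : ℤ) := by push_cast; ring
      rw [e', padicValInt.of_nat, padicValNat.prime_pow]
    rw [h2, h3, add_zero]
  unfold Cs
  rw [h1, h]
  exact Int.mul_ediv_cancel_left _ (by positivity)

/-- the orbit along a word -/
theorem path_eq (w : List ℕ) : (∀ a ∈ w, 1 ≤ a) → ∀ M x : ℤ, Odd M → Odd x → Vw 1 w M x →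
    Cs^[w.length] M = x := by
  induction w using List.reverseRecOn with
  | nil =>
    intro _ M x _ _ h
    unfold Vw at h; simp [Wo] at h; simp [h]
  | append_singleton u e ih =>
    intro hw M x hM hx h
    have hu : ∀ a ∈ u, 1 ≤ a := fun a ha => hw a (by simp [ha])
    obtain ⟨M₁, hM₁, h1, h2⟩ := Vw_snoc odd_one hu hx h
    rw [List.length_append, List.length_singleton, Function.iterate_succ_apply, Cs_eq hM₁ h1]
    exact ih hu M₁ x hM₁ hx h2

/-- the values along a word are not small -/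
theorem path_ge (w : List ℕ) : (∀ a ∈ w, 1 ≤ a) → ∀ M x : ℤ, Odd M → Odd x → 0 < M → Vw 1 w M x →
    ∀ i ≤ w.length, M ≤ 2 ^ w.sum * Cs^[i] M := by
  induction w using List.reverseRecOn with
  | nil =>
    intro _ M x _ _ _ _ i hi
    simp at hi
    subst hi
    simp
  | append_singleton u e ih =>
    intro hw M x hM hx h0 h i hi
    have hu : ∀ a ∈ u, 1 ≤ a := fun a ha => hw a (by simp [ha])
    obtain ⟨M₁, hM₁, h1, h2⟩ := Vw_snoc odd_one hu hx h
    have h2e : (0 : ℤ) < 2 ^ e := by positivity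
    have hM1 : 0 < M₁ := by
      by_contra hcon
      rw [not_lt] at hcon
      have := mul_nonpos_of_nonneg_of_nonpos h2e.le hcon
      linarith
    cases i with
    | zero =>
      have h3 : (1 : ℤ) ≤ 2 ^ (u ++ [e]).sum := one_le_pow₀ (by norm_num)
      simp only [Function.iterate_zero, id]
      nlinarith
    | succ i =>
      rw [List.length_append, List.length_singleton] at hi
      have h3 := ih hu M₁ x hM₁ hx hM1 h2 i (by omega)
      rw [Function.iterate_succ_apply, Cs_eq hM₁ h1, List.sum_append, List.sum_singleton, pow_add]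
      have h4 := mul_le_mul_of_nonneg_left h3 h2e.le
      calc M ≤ 3 * M + 1 := by linarith
        _ = 2 ^ e * M₁ := h1
        _ ≤ 2 ^ e * (2 ^ u.sum * Cs^[i] M₁) := h4
        _ = _ := by ring

/-- the integers which reach a value `≤ y` in at most `j` steps -/
def Bs (y : ℝ) (j : ℕ) : Set ℤ := {M | ∃ i ≤ j, ((Cs^[i] M : ℤ) : ℝ) ≤ y}

theorem mem_Bs {y : ℝ} {j : ℕ} {M : ℤ} : M ∈ Bs y j ↔ ∃ i ≤ j, ((Cs^[i] M : ℤ) : ℝ) ≤ y := Iff.rfl

theorem path_Bs {y A : ℝ} {j k : ℕ} (w : List ℕ) (hlen : w.length = k) (hw : ∀ a ∈ w, 1 ≤ a)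
    {M x : ℤ} (hM : Odd M) (hx : Odd x) (hA0 : 0 < A) (hAM : A ≤ M) (hy : y * 2 ^ w.sum < A)
    (hB : M ∈ Bs y j) (hV : Vw 1 w M x) : k < j ∧ x ∈ Bs y (j - k) := by
  obtain ⟨i, hi, h1⟩ := hB
  have hM0 : 0 < M := by
    have : (0 : ℝ) < M := by linarith
    exact_mod_cast this
  have hki : k < i := by
    by_contra hcon
    rw [not_lt] at hcon
    have h2 := path_ge w hw M x hM hx hM0 hV i (by omega)
    have h3 : (M : ℝ) ≤ 2 ^ w.sum * ((Cs^[i] M : ℤ) : ℝ) := by exact_mod_cast h2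
    have h4 : (2 : ℝ) ^ w.sum * ((Cs^[i] M : ℤ) : ℝ) ≤ 2 ^ w.sum * y :=
      mul_le_mul_of_nonneg_left h1 (by positivity)
    linarith
  refine ⟨by omega, i - k, by omega, ?_⟩
  have h5 := path_eq w hw M x hM hx hV
  rw [hlen] at h5
  rw [← h5, ← Function.iterate_add_apply, Nat.sub_add_cancel hki.le]
  exact h1

theorem path_Bs_compl {y : ℝ} {j k : ℕ} (w : List ℕ) (hlen : w.length = k) (hw : ∀ a ∈ w, 1 ≤ a)
    {M x : ℤ} (hM : Odd M) (hx : Odd x) (hkj : k ≤ j)
    (hB : M ∈ (Bs y j)ᶜ) (hV : Vw 1 w M x) : x ∈ (Bs y (j - k))ᶜ := by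
  intro ⟨i, hi, h1⟩
  apply hB
  have h5 := path_eq w hw M x hM hx hV
  rw [hlen] at h5
  refine ⟨i + k, by omega, ?_⟩
  rw [Function.iterate_add_apply, h5]
  exact h1

end Pool.Agent.TH237.AV
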