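import Pool.Agent.TH237.AV.UpNear
import Pool.Agent.H499R2.NDEqui

set_option autoImplicit false

/-! Sums over the odd integers below `X`. -/

namespace Pool.Agent.TH237.AV

open Finset Pool.Agent.H320R2.PD Pool.Agent.H499R2.ND

/-- the sum of `min (h_y, L)` over the odd integers of `[1,X)`, `h_y` the number of steps to a value `≤ y` -/
noncomputable def SL (L : ℕ) (y X : ℝ) : ℝ := ∑ j ∈ range L, ((cls (Bs y j)ᶜ 1 X 0 1 0).card : ℝ)

theorem SL_nonneg (L : ℕ) (y X : ℝ) : 0 ≤ SL L y X := sum_nonneg fun _ _ => Nat.cast_nonneg _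

theorem cls_split (S : Set ℤ) {a b c : ℝ} (hab : a ≤ b) (hbc : b ≤ c) (m : ℕ) (u v : ℤ) :
    ((cls S a c m u v).card : ℝ) = (cls S a b m u v).card + (cls S b c m u v).card := by
  classical
  have hdisj : Disjoint (cls S a b m u v) (cls S b c m u v) := by
    rw [Finset.disjoint_left]
    intro x hx hx'
    rw [mem_cls] at hx hx'
    linarith [hx.1.2, hx'.1.1]
  have hun : cls S a b m u v ∪ cls S b c m u v = cls S a c m u v := by
    ext x
    rw [mem_union, mem_cls, mem_cls, mem_cls]
    constructor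
    · rintro (h | h)
      · exact ⟨⟨h.1.1, by linarith [h.1.2]⟩, h.2⟩
      · exact ⟨⟨by linarith [h.1.1], h.1.2⟩, h.2⟩
    · rintro ⟨⟨h1, h2⟩, h3⟩
      rcases lt_or_ge (x : ℝ) b with hb | hb
      · exact Or.inl ⟨⟨h1, hb⟩, h3⟩
      · exact Or.inr ⟨⟨hb, h2⟩, h3⟩
  rw [← hun, card_union_of_disjoint hdisj]
  push_cast; ring

theorem SL_split (L : ℕ) (y : ℝ) {b c : ℝ} (hb : 1 ≤ b) (hbc : b ≤ c) :
    SL L y c = SL L y b + ∑ j ∈ range L, ((cls (Bs y j)ᶜ b c 0 1 0).card : ℝ) := by
  unfold SL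
  rw [← sum_add_distrib]
  exact sum_congr rfl fun j _ => cls_split _ hb hbc 0 1 0

/-- the lower bound for a window -/
theorem win_lower {Λ : ℝ} (hΛ : c0 < Λ) : ∃ D : ℝ, 0 < D ∧ ∀ (L : ℕ) (y A : ℝ), 1 ≤ y → 1 ≤ A →
    Λ * Real.log A ≤ L →
    A / 2 * (c0 * (Real.log A - Real.log y) - D) ≤ ∑ j ∈ range L, ((cls (Bs y j)ᶜ A (2 * A) 0 1 0).card : ℝ) := by
  have hΛ0 : 0 < Λ := c0_pos.trans hΛ
  obtain ⟨D, hD, h⟩ := low_main hΛ
  refine ⟨D + 2 * (Λ + 1), by positivity, fun L y A hy hA hL => ?_⟩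
  have hlA : 0 ≤ Real.log A := Real.log_nonneg hA
  have h1 := h y A hy hA 0 (by simpa using hlA) 1 0 isCoprime_one_left
  set n := ⌈Λ * Real.log A⌉₊ with hn
  have hnL : n ≤ L := Nat.ceil_le.2 hL
  have hn2 : (n : ℝ) ≤ Λ * Real.log A + 1 := (Nat.ceil_lt_add_one (by positivity)).le
  have hlog : Real.log A ≤ A := by
    have := Real.log_le_sub_one_of_pos (by linarith : 0 < A)
    linarith
  have hn3 : (n : ℝ) ≤ (Λ + 1) * A := by nlinarith
  have h2 : ∑ j ∈ range n, ((cls (Bs y j)ᶜ A (2 * A) 0 1 0).card : ℝ)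
      ≤ ∑ j ∈ range L, ((cls (Bs y j)ᶜ A (2 * A) 0 1 0).card : ℝ) := by
    apply sum_le_sum_of_subset_of_nonneg
    · intro i hi
      rw [mem_range] at hi ⊢
      omega
    · intro i _ _; exact Nat.cast_nonneg _
  refine le_trans ?_ h2
  have h3 : ∑ j ∈ range n, (A / 2 - 1 : ℝ) ≤ ∑ j ∈ range n, (((cls (Bs y j) A (2 * A) 0 1 0).card : ℝ)
      + (cls (Bs y j)ᶜ A (2 * A) 0 1 0).card) := by
    apply sum_le_sum
    intro j _
    rw [cls_compl]
    have := le_cls_univ A (2 * A) 0 (u := 1) isCoprime_one_left 0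
    rw [pow_zero, mul_one, show 2 * A - A = A by ring] at this
    exact this
  rw [sum_const, card_range, nsmul_eq_mul, sum_add_distrib] at h3
  rw [pow_zero, mul_one] at h1
  nlinarith

/-- the lower bound -/
theorem sum_lower {Λ : ℝ} (hΛ : c0 < Λ) : ∃ C : ℝ, 0 < C ∧ ∀ (L : ℕ) (y X : ℝ), 1 ≤ y → 1 ≤ X →
    Λ * Real.log X ≤ L → X / 2 * (c0 * (Real.log X - Real.log y) - C) ≤ SL L y X := by
  have hΛ0 : 0 < Λ := c0_pos.trans hΛ
  obtain ⟨D, hD, h⟩ := win_lower hΛ
  have hc := c0_pos
  have hl2 := Real.log_two_gt_d9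
  refine ⟨D + 2 * c0 * Real.log 2, by positivity, ?_⟩
  intro L y X hy hX hL
  have hlogy : 0 ≤ Real.log y := Real.log_nonneg hy
  have key : ∀ n : ℕ, ∀ X : ℝ, 1 ≤ X → X < 2 ^ n → Λ * Real.log X ≤ L →
      X / 2 * (c0 * (Real.log X - Real.log y) - (D + 2 * c0 * Real.log 2)) ≤ SL L y X := by
    intro n
    induction n with
    | zero => intro X h1 h2; simp at h2; linarith
    | succ n ih =>
      intro X h1 h2 h3
      rcases lt_or_ge X 2 with h4 | h4
      · refine le_trans ?_ (SL_nonneg L y X)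
        apply mul_nonpos_of_nonneg_of_nonpos (by linarith)
        have h5 : Real.log X ≤ Real.log 2 := Real.log_le_log (by linarith) h4.le
        have h6 : c0 * (Real.log X - Real.log y) ≤ c0 * Real.log 2 :=
          mul_le_mul_of_nonneg_left (by linarith) hc.le
        have : 0 < c0 * Real.log 2 := by positivity
        linarith
      · have h5 : 1 ≤ X / 2 := by linarith
        have hlog : Real.log (X / 2) = Real.log X - Real.log 2 := Real.log_div (by linarith) (by norm_num)
        have hL' : Λ * Real.log (X / 2) ≤ L := by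
          refine le_trans ?_ h3
          apply mul_le_mul_of_nonneg_left _ hΛ0.le
          rw [hlog]
          linarith
        have h6 := ih (X / 2) h5 (by rw [pow_succ] at h2; linarith) hL'
        have h7 := h L y (X / 2) hy h5 hL'
        have h8 := SL_split L y (b := X / 2) (c := X) h5 (by linarith)
        rw [show 2 * (X / 2) = X by ring] at h7
        rw [h8]
        rw [hlog] at h6 h7
        have e : X / 2 * (c0 * (Real.log X - Real.log y) - (D + 2 * c0 * Real.log 2))
            = X / 2 / 2 * (c0 * (Real.log X - Real.log 2 - Real.log y) - (D + 2 * c0 * Real.log 2))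
              + X / 2 / 2 * (c0 * (Real.log X - Real.log 2 - Real.log y) - D) := by ring
        rw [e]
        exact add_le_add h6 h7
  obtain ⟨n, hn⟩ := pow_unbounded_of_one_lt X (by norm_num : (1 : ℝ) < 2)
  exact key n X hX hn hL

/-- below `y` there is nothing to do -/
theorem SL_zero (L : ℕ) {y X : ℝ} (h : X ≤ y) : SL L y X = 0 := by
  unfold SL
  apply sum_eq_zero
  intro j _
  rw [Nat.cast_eq_zero, card_eq_zero]
  apply eq_empty_of_forall_notMem
  intro M hM
  rw [mem_cls] at hM
  apply hM.2.2.1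
  refine ⟨0, by omega, ?_⟩
  simp only [Function.iterate_zero, id]
  linarith [hM.1.2]

/-- the upper bound -/
theorem sum_upper (K : ℕ) : ∃ C : ℝ, 0 < C ∧ ∀ (L : ℕ) (y X : ℝ), 1 ≤ y → y ≤ X →
    (L : ℝ) ≤ (Real.log y) ^ K → Real.log X ≤ L →
    SL L y X ≤ X / 2 * (c0 * (Real.log X - Real.log y) + C) := by
  obtain ⟨D, hD, h⟩ := up_main K
  have hc := c0_pos
  have hl2 := Real.log_two_gt_d9
  refine ⟨D, hD, ?_⟩
  intro L y X hy hX hLK hL
  have hy0 : 0 < y := by linarith
  have hlogy : 0 ≤ Real.log y := Real.log_nonneg hy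
  have hwin : ∀ A : ℝ, y ≤ A → Real.log A ≤ L → ∑ j ∈ range L, ((cls (Bs y j)ᶜ A (2 * A) 0 1 0).card : ℝ)
      ≤ (c0 * (Real.log A - Real.log y) + D) * (A / 2) := by
    intro A hA hLA
    have hlA : 0 ≤ Real.log A := Real.log_nonneg (by linarith)
    have h1 := h L y A hy hA hLK hLA 0 (by simpa using hlA) 1 0 isCoprime_one_left
    rwa [pow_zero, mul_one] at h1
  have key : ∀ n : ℕ, ∀ X : ℝ, y ≤ X → X < 2 ^ n → Real.log X ≤ L →
      SL L y X ≤ X / 2 * (c0 * (Real.log X - Real.log y) + D) := by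
    intro n
    induction n with
    | zero => intro X h1 h2; simp at h2; linarith
    | succ n ih =>
      intro X h1 h2 h3
      have hX0 : 0 < X := by linarith
      have hlyX : Real.log y ≤ Real.log X := Real.log_le_log hy0 h1
      rcases lt_or_ge (X / 2) y with h4 | h4
      · -- only the window `[y, 2y)`
        have h5 := SL_split L y (b := y) (c := X) hy h1
        rw [SL_zero L le_rfl, zero_add] at h5
        rw [h5]
        have h6 : ∑ j ∈ range L, ((cls (Bs y j)ᶜ y X 0 1 0).card : ℝ)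
            ≤ ∑ j ∈ range L, ((cls (Bs y j)ᶜ y (2 * y) 0 1 0).card : ℝ) := by
          apply sum_le_sum
          intro j _
          rw [cls_split _ h1 (by linarith : X ≤ 2 * y) 0 1 0]
          have : (0 : ℝ) ≤ ((cls (Bs y j)ᶜ X (2 * y) 0 1 0).card : ℝ) := Nat.cast_nonneg _
          linarith
        have h7 := hwin y le_rfl (hlyX.trans h3)
        refine h6.trans (h7.trans ?_)
        rw [sub_self, mul_zero, zero_add]
        have h8 : 0 ≤ c0 * (Real.log X - Real.log y) := mul_nonneg hc.le (by linarith)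
        nlinarith
      · have hlog : Real.log (X / 2) = Real.log X - Real.log 2 := Real.log_div (by linarith) (by norm_num)
        have hL' : Real.log (X / 2) ≤ L := by rw [hlog]; linarith
        have h6 := ih (X / 2) h4 (by rw [pow_succ] at h2; linarith) hL'
        have h7 := hwin (X / 2) h4 hL'
        have h8 := SL_split L y (b := X / 2) (c := X) (by linarith) (by linarith)
        rw [show 2 * (X / 2) = X by ring] at h7
        rw [h8]
        rw [hlog] at h6 h7
        have e : X / 2 * (c0 * (Real.log X - Real.log y) + D)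
            = X / 2 / 2 * (c0 * (Real.log X - Real.log 2 - Real.log y) + D)
              + (c0 * (Real.log X - Real.log 2 - Real.log y) + D) * (X / 2 / 2)
              + X / 2 * (c0 * Real.log 2) := by ring
        rw [e]
        have : 0 ≤ X / 2 * (c0 * Real.log 2) := by positivity
        linarith
  obtain ⟨n, hn⟩ := pow_unbounded_of_one_lt X (by norm_num : (1 : ℝ) < 2)
  exact key n X hX hn hL

end Pool.Agent.TH237.AV
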