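import Pool.Agent.TH237.AV.Base

set_option autoImplicit false

/-! The upper bound for the mean number of steps. -/

namespace Pool.Agent.TH237.AV

open Finset Pool.Agent.H320R2.PD Pool.Agent.H499R2.ND

/-- the upper bound for the mean of the number of steps to values `≤ y`, cut at `L`, in all classes
mod `3^m` of the odd integers of `[A,2A)` -/
def PUp (L : ℕ) (y A D : ℝ) : Prop := ∀ m : ℕ, (m : ℝ) ^ 2 ≤ Real.log A → ∀ u v : ℤ, IsCoprime u 3 →
  ∑ j ∈ range L, ((cls (Bs y j)ᶜ A (2 * A) m u v).card : ℝ)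
    ≤ (c0 * (Real.log A - Real.log y) + D) * (A / (2 * 3 ^ m))

theorem PUp.mono {L : ℕ} {y A D D' : ℝ} (hA : 0 < A) (h : PUp L y A D) (hD : D ≤ D') : PUp L y A D' := by
  intro m hm u v hu
  refine (h m hm u v hu).trans ?_
  apply mul_le_mul_of_nonneg_right _ (by positivity)
  linarith

theorem q_le (cap k Tl Tm : ℕ) (hk : 1 ≤ k) : (1 / 2 : ℝ) ^ cap ≤ 1 - ∑ w ∈ GW cap k Tl Tm, wwt w := by
  have h1 : ∑ w ∈ GW cap k Tl Tm, wwt w ≤ ∑ w ∈ FW cap k, wwt w := by
    unfold GW
    apply sum_le_sum_of_subset_of_nonneg (filter_subset _ _)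
    intro w _ _; exact wwt_nonneg w
  rw [sum_wwt] at h1
  have h2 : (1 / 2 : ℝ) ^ cap ≤ 1 := pow_le_one₀ (by norm_num) (by norm_num)
  have h0 : (0 : ℝ) < (1 / 2 : ℝ) ^ cap := by positivity
  have h3 : (1 - (1 / 2 : ℝ) ^ cap) ^ k ≤ (1 - (1 / 2 : ℝ) ^ cap) ^ 1 :=
    pow_le_pow_of_le_one (by linarith) (by linarith) hk
  rw [pow_one] at h3
  linarith

/-- ONE STAGE of the upper bound -/
theorem up_stage (K : ℕ) : ∃ C : ℝ, 0 < C ∧ ∀ (L : ℕ) (y A D : ℝ), 1 ≤ y → 0 < A →
    1000 ≤ Real.log A → Real.log y ≤ Real.log A → (L : ℝ) ≤ (Real.log A) ^ K → Real.log A ≤ L → 0 ≤ D →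
    (∀ T : ℕ, 39 * ⌊Real.log A / 20⌋₊ ≤ 20 * T → 20 * T ≤ 41 * ⌊Real.log A / 20⌋₊ →
      PUp L y (A * 3 ^ ⌊Real.log A / 20⌋₊ / 2 ^ T) D) →
    PUp L y A (D + C / (Real.log A) ^ 2) := by
  obtain ⟨C₁, hC₁, hE⟩ := err_bound20 (K + 4) 1
  obtain ⟨C₂, hC₂, hM⟩ := mass_bound20 20 le_rfl (K + 4)
  have hc0 := c0_pos
  have hN : 20 ≤ 20 := le_rfl
  refine ⟨2 * (Nat.factorial 3 * 5 ^ 3) + c0 * Real.log 2 * C₂ + (C₁ + C₂), by
    have hl := Real.log_pos (by norm_num : (1 : ℝ) < 2)
    positivity, ?_⟩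
  intro L y A D hy hA ht hyA hLK hLA hD hT
  intro m hm u v hu
  set t := Real.log A with htdef
  have htpos : 0 < t := by linarith
  have ht1 : 1 ≤ t := by linarith
  set k := ⌊t / 20⌋₊ with hk
  set m' := ⌊Real.sqrt (0.8 * t)⌋₊ with hm'
  have hk1 : (k : ℝ) ≤ t / 20 := Nat.floor_le (by linarith)
  have hk2 : t / 20 - 1 ≤ k := by linarith [Nat.lt_floor_add_one (t / 20)]
  have hk1N : 1 ≤ k := by
    have : (1 : ℝ) ≤ k := by linarith
    exact_mod_cast this
  have hs8 : Real.sqrt (0.8 * t) ≤ t / 20 - 1 := by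
    rw [Real.sqrt_le_left (by linarith)]
    nlinarith
  have hm'k : m' ≤ k := by
    have h1 : (m' : ℝ) ≤ Real.sqrt (0.8 * t) := Nat.floor_le (Real.sqrt_nonneg _)
    have : (m' : ℝ) ≤ k := by linarith
    exact_mod_cast this
  have hm'sq : (m' : ℝ) ^ 2 ≤ 0.8 * t := by
    have h1 : (m' : ℝ) ≤ Real.sqrt (0.8 * t) := Nat.floor_le (Real.sqrt_nonneg _)
    calc (m' : ℝ) ^ 2 ≤ Real.sqrt (0.8 * t) ^ 2 := pow_le_pow_left₀ (Nat.cast_nonneg _) h1 2
      _ = 0.8 * t := Real.sq_sqrt (by positivity)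
  have hlogy : 0 ≤ Real.log y := Real.log_nonneg hy
  have hl2a := Real.log_two_gt_d9
  have hl2b := Real.log_two_lt_d9
  have hkL : k ≤ L := by
    have : (k : ℝ) ≤ L := by linarith
    exact_mod_cast this
  set ε₂ := (k : ℝ) * (2 * Real.exp (-(t / 5))) with hε₂
  have hε₂0 : 0 ≤ ε₂ := by positivity
  set Q := c0 * (t - Real.log y) + D + ε₂ with hQ
  have hQ0 : 0 ≤ Q := by
    have h2 : 0 ≤ c0 * (t - Real.log y) := mul_nonneg hc0.le (by linarith)
    linarith
  have hmain := stageW hN odd_one (isCoprime_one_left : IsCoprime (1 : ℤ) 3) (fun j => (Bs y j)ᶜ)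
    (fun j => if j < k then Set.univ else (Bs y (j - k))ᶜ) L hA (k := k) (m := m) (m' := m') hk1N hm'k
    (by
      intro j _ w hw M x hM hx hAM _ hB hV
      have hw' := hw
      rw [mem_GWN (by norm_num)] at hw'
      obtain ⟨hFW, -, -⟩ := hw'
      obtain ⟨hlen, hlet⟩ := FW_props hFW
      split_ifs with hjk
      · exact Set.mem_univ _
      · exact path_Bs_compl w hlen hlet hM hx (by omega) hB hV)
    (fun T => Q - c0 * Real.log 2 * ((T : ℝ) - 2 * k))
    (by
      intro T h1 h2 u v hu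
      obtain ⟨g1, g2⟩ := spread20 hN h1 h2
      obtain ⟨e1, e2, e3⟩ := next20 hA ht hk g1 g2
      rw [← htdef] at e1 e2 e3
      set A' := A * 3 ^ k / 2 ^ T with hA'
      have hA'0 : 0 < A' := by positivity
      set Y := A' / (2 * 3 ^ m') with hY
      have hY0 : 0 < Y := by positivity
      have h6 := hT T g1 g2 m' (by
        rw [← hA']
        linarith) u v hu
      rw [← hA', ← hY] at h6
      have h3 : ∑ j ∈ range L, ((cls (if j < k then Set.univ else (Bs y (j - k))ᶜ) A' (2 * A') m' u v).card : ℝ)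
          ≤ k * (Y + 1) + ∑ i ∈ range L, ((cls (Bs y i)ᶜ A' (2 * A') m' u v).card : ℝ) := by
        obtain ⟨n, hn⟩ := Nat.exists_eq_add_of_le hkL
        have hsp : range L = range (k + n) := by rw [hn]
        rw [hsp, sum_range_add]
        have g3 : ∑ x ∈ range k, ((cls (if x < k then Set.univ else (Bs y (x - k))ᶜ) A' (2 * A') m' u v).card : ℝ)
            ≤ ∑ x ∈ range k, (Y + 1) := by
          apply sum_le_sum
          intro x _
          have := cls_card_le (if x < k then Set.univ else (Bs y (x - k))ᶜ)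
            (by linarith : A' ≤ 2 * A') m' hu v
          rw [show 2 * A' - A' = A' by ring] at this
          exact this
        rw [sum_const, card_range, nsmul_eq_mul] at g3
        have g4 : ∑ x ∈ range n, ((cls (if k + x < k then Set.univ else (Bs y (k + x - k))ᶜ)
            A' (2 * A') m' u v).card : ℝ)
            ≤ ∑ i ∈ range (k + n), ((cls (Bs y i)ᶜ A' (2 * A') m' u v).card : ℝ) := by
          have g5 : ∑ x ∈ range n, ((cls (if k + x < k then Set.univ else (Bs y (k + x - k))ᶜ)
            A' (2 * A') m' u v).card : ℝ) = ∑ i ∈ range n, ((cls (Bs y i)ᶜ A' (2 * A') m' u v).card : ℝ) := by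
            apply sum_congr rfl
            intro x _
            rw [if_neg (by omega), Nat.add_sub_cancel_left]
          rw [g5]
          apply sum_le_sum_of_subset_of_nonneg
          · intro i hi
            rw [mem_range] at hi ⊢
            omega
          · intro i _ _; exact Nat.cast_nonneg _
        linarith
      refine h3.trans ?_
      have h7 : 1 ≤ 2 * Real.exp (-(t / 5)) * Y := by
        have h8 := pow_m_le ht (m := m') (by linarith)
        have h9 : A' = Real.exp (Real.log A') := (Real.exp_log hA'0).symm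
        have h10 : Real.exp (0.98 * t) ≤ A' := by rw [h9]; exact Real.exp_le_exp.2 e2
        rw [hY, mul_div_assoc', le_div_iff₀ (by positivity), one_mul]
        calc 2 * (3 : ℝ) ^ m' ≤ 2 * Real.exp (0.05 * t) := by linarith
          _ ≤ 2 * Real.exp (-(t / 5) + 0.98 * t) := by
              apply mul_le_mul_of_nonneg_left _ (by norm_num)
              apply Real.exp_le_exp.2
              linarith
          _ = 2 * Real.exp (-(t / 5)) * Real.exp (0.98 * t) := by rw [Real.exp_add]; ring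
          _ ≤ 2 * Real.exp (-(t / 5)) * A' := mul_le_mul_of_nonneg_left h10 (by positivity)
      have h12 : (k : ℝ) * 1 ≤ (k : ℝ) * (2 * Real.exp (-(t / 5)) * Y) :=
        mul_le_mul_of_nonneg_left h7 (Nat.cast_nonneg _)
      have h13 : (Q - c0 * Real.log 2 * ((T : ℝ) - 2 * k)) * Y
          = ((k : ℝ) + c0 * (Real.log A' - Real.log y) + D) * Y
            + (k : ℝ) * (2 * Real.exp (-(t / 5)) * Y) := by
        rw [e1, hQ, hε₂]
        have h14 : c0 * (k * Real.log 3) = 2 * (c0 * Real.log 2 * k) - k := by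
          have h15 := c0_mul
          have : c0 * Real.log 3 = 2 * (c0 * Real.log 2) - 1 := by linarith
          calc c0 * (k * Real.log 3) = (c0 * Real.log 3) * k := by ring
            _ = _ := by rw [this]; ring
        linear_combination (-Y) * h14
      rw [h13]
      linarith)
    u v hu
  refine hmain.trans ?_
  apply mul_le_mul_of_nonneg_right _ (by positivity)
  set μ := ∑ w ∈ GW (3 * k) k (Tlo 20 k) (Thi 20 k), wwt w with hμ
  have hμ1 : 0 ≤ 1 - μ := mass_nonneg _ _ _ _
  have hμ2 : 1 - μ ≤ C₂ / t ^ (K + 4) := hM t ht k hk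
  have hsum : ∑ w ∈ GW (3 * k) k (Tlo 20 k) (Thi 20 k), wwt w * (Q - c0 * Real.log 2 * ((w.sum : ℝ) - 2 * k))
      = Q * μ - c0 * Real.log 2 * ∑ w ∈ GW (3 * k) k (Tlo 20 k) (Thi 20 k), wwt w * ((w.sum : ℝ) - 2 * k) := by
    rw [hμ, mul_sum, mul_sum, ← sum_sub_distrib]
    apply sum_congr rfl
    intro w _
    ring
  rw [hsum]
  have hmean := mean_GW_ge (3 * k) k (Tlo 20 k) (Thi 20 k) hk1N (by omega)
  have hq := q_le (3 * k) k (Tlo 20 k) (Thi 20 k) hk1N
  rw [← hμ] at hmean hq
  have hk0 : (0 : ℝ) ≤ k := Nat.cast_nonneg k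
  have hmean2 : -(6 * (k : ℝ) ^ 2 * (1 - μ))
      ≤ ∑ w ∈ GW (3 * k) k (Tlo 20 k) (Thi 20 k), wwt w * ((w.sum : ℝ) - 2 * k) := by
    refine le_trans ?_ hmean
    push_cast
    have : (k : ℝ) * (3 * k * (1 / 2) ^ (3 * k)) ≤ 3 * k ^ 2 * (1 - μ) := by
      calc (k : ℝ) * (3 * k * (1 / 2) ^ (3 * k)) = 3 * k ^ 2 * (1 / 2) ^ (3 * k) := by ring
        _ ≤ _ := mul_le_mul_of_nonneg_left hq (by positivity)
    linarith
  have h1 := mul_le_mul_of_nonneg_left hmean2 (by positivity : 0 ≤ c0 * Real.log 2)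
  have h2 : Q * μ ≤ Q := by nlinarith
  have hEr := hE A hA ht k m m' hm hk hm'
  rw [← htdef] at hEr
  have h3 : ErrN 20 1 A k m m' ≤ (C₁ + C₂) / t ^ (K + 4) := by
    unfold ErrN
    rw [← hμ, add_div]
    linarith
  have hpow : t ^ (K + 4) = t ^ K * t ^ 4 := pow_add _ _ _
  have hK1 : 1 ≤ t ^ K := one_le_pow₀ ht1
  have h4 : (L : ℝ) * ErrN 20 1 A k m m' ≤ (C₁ + C₂) / t ^ 2 := by
    calc (L : ℝ) * ErrN 20 1 A k m m' ≤ L * ((C₁ + C₂) / t ^ (K + 4)) :=
          mul_le_mul_of_nonneg_left h3 (Nat.cast_nonneg _)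
      _ ≤ t ^ K * ((C₁ + C₂) / t ^ (K + 4)) := mul_le_mul_of_nonneg_right hLK (by positivity)
      _ = (C₁ + C₂) / t ^ 4 := by rw [hpow]; field_simp
      _ ≤ (C₁ + C₂) / t ^ 2 := by
          apply div_le_div_of_nonneg_left (by linarith) (by positivity)
          exact pow_le_pow_right₀ ht1 (by norm_num)
  have h5 : ε₂ ≤ 2 * (Nat.factorial 3 * 5 ^ 3) / t ^ 2 := by
    have h6 := exp_neg_le 3 (by norm_num : (0 : ℝ) < 5) htpos
    calc ε₂ ≤ t * (2 * ((Nat.factorial 3 * 5 ^ 3) / t ^ 3)) := by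
          rw [hε₂]
          apply mul_le_mul (by linarith) _ (by positivity) (by positivity)
          linarith
      _ = _ := by field_simp
  have h6 : c0 * Real.log 2 * (6 * (k : ℝ) ^ 2 * (1 - μ)) ≤ c0 * Real.log 2 * C₂ / t ^ 2 := by
    have h7 : 6 * (k : ℝ) ^ 2 * (1 - μ) ≤ t ^ 2 * (C₂ / t ^ 4) := by
      have h8 : 6 * (k : ℝ) ^ 2 ≤ t ^ 2 := by nlinarith
      have h9 : 1 - μ ≤ C₂ / t ^ 4 := by
        refine hμ2.trans ?_
        apply div_le_div_of_nonneg_left hC₂.le (by positivity)
        exact pow_le_pow_right₀ ht1 (by omega)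
      exact mul_le_mul h8 h9 hμ1 (by positivity)
    have h8 : t ^ 2 * (C₂ / t ^ 4) = C₂ / t ^ 2 := by field_simp
    rw [h8] at h7
    calc c0 * Real.log 2 * (6 * (k : ℝ) ^ 2 * (1 - μ)) ≤ c0 * Real.log 2 * (C₂ / t ^ 2) :=
          mul_le_mul_of_nonneg_left h7 (by positivity)
      _ = _ := by ring
  rw [add_div, add_div]
  rw [hQ] at h2 ⊢
  linarith

/-- the induction over the scales -/
theorem up_all (K : ℕ) : ∃ C : ℝ, 0 < C ∧ ∀ (L : ℕ) (y D : ℝ), 1000 ≤ Real.log y → 1 ≤ y → 0 ≤ D →
    (L : ℝ) ≤ (Real.log y) ^ K →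
    (∀ A : ℝ, y ≤ A → Real.log A ≤ 1.1 * Real.log y → PUp L y A D) →
    ∀ A : ℝ, y ≤ A → Real.log A ≤ L → PUp L y A (D + C) := by
  obtain ⟨C, hC, h⟩ := up_stage K
  refine ⟨100 * C / 1000, by positivity, fun L y D hly hy hD hLK hbase => ?_⟩
  have hy0 : 0 < y := by linarith
  have hlyp : 0 < Real.log y := by linarith
  have key : ∀ n : ℕ, ∀ A : ℝ, y ≤ A → Real.log A ≤ n → Real.log A ≤ L →
      PUp L y A (D + 100 * C * (1 / Real.log y - 1 / Real.log A)) := by
    intro n
    induction n with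
    | zero =>
      intro A hA h1 _
      have := Real.log_le_log hy0 hA
      simp at h1
      linarith
    | succ n ih =>
      intro A hA h1 hLA
      have hA0 : 0 < A := by linarith
      have hyA := Real.log_le_log hy0 hA
      have htp : 0 < Real.log A := by linarith
      by_cases hb : Real.log A ≤ 1.1 * Real.log y
      · refine (hbase A hA hb).mono hA0 ?_
        have h3 : 1 / Real.log A ≤ 1 / Real.log y := one_div_le_one_div_of_le hlyp hyA
        have h4 : 0 ≤ 100 * C * (1 / Real.log y - 1 / Real.log A) :=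
          mul_nonneg (by positivity) (by linarith)
        linarith
      · rw [not_le] at hb
        have hlA : 1000 ≤ Real.log A := by linarith
        have h099 : 0 < 0.99 * Real.log A := by linarith
        have e0 : 1 / (0.99 * Real.log A) ≤ 1 / Real.log y :=
          one_div_le_one_div_of_le hlyp (by linarith)
        have hst := h L y A (D + 100 * C * (1 / Real.log y - 1 / (0.99 * Real.log A))) hy hA0 hlA hyA
          (hLK.trans (pow_le_pow_left₀ hlyp.le hyA K)) hLA
          (by
            have : 0 ≤ 100 * C * (1 / Real.log y - 1 / (0.99 * Real.log A)) :=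
              mul_nonneg (by positivity) (by linarith)
            linarith)
          (by
            intro T g1 g2
            obtain ⟨e1, e2, e3⟩ := next20 hA0 hlA rfl g1 g2
            set A' := A * 3 ^ ⌊Real.log A / 20⌋₊ / 2 ^ T with hA'
            have hA'0 : 0 < A' := by positivity
            have hlA' : 0 < Real.log A' := by linarith
            have hyA' : y ≤ A' := by
              have h7 : Real.log y ≤ Real.log A' := by linarith
              exact (Real.log_le_log_iff hy0 hA'0).1 h7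
            refine (ih A' hyA' ?_ ?_).mono hA'0 ?_
            · push_cast at h1
              linarith
            · linarith
            · have h3 : 1 / (0.99 * Real.log A) ≤ 1 / Real.log A' := one_div_le_one_div_of_le hlA' e3
              have h4 : 100 * C * (1 / Real.log y - 1 / Real.log A')
                  ≤ 100 * C * (1 / Real.log y - 1 / (0.99 * Real.log A)) :=
                mul_le_mul_of_nonneg_left (by linarith) (by positivity)
              linarith)
        refine hst.mono hA0 ?_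
        have h5 : C / Real.log A ^ 2 ≤ 100 * C * (1 / (0.99 * Real.log A) - 1 / Real.log A) := by
          have e5 : 100 * C * (1 / (0.99 * Real.log A) - 1 / Real.log A) = C / (0.99 * Real.log A) := by
            field_simp
            ring
          rw [e5]
          apply div_le_div_of_nonneg_left hC.le (by positivity)
          nlinarith
        have e6 : 100 * C * (1 / Real.log y - 1 / Real.log A)
            = 100 * C * (1 / Real.log y - 1 / (0.99 * Real.log A))
              + 100 * C * (1 / (0.99 * Real.log A) - 1 / Real.log A) := by ring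
        rw [e6]
        linarith
  intro A hA hLA
  have hA0 : 0 < A := by linarith
  have hyA := Real.log_le_log hy0 hA
  obtain ⟨n, hn⟩ := exists_nat_ge (Real.log A)
  refine (key n A hA hn hLA).mono hA0 ?_
  have h2 : 0 ≤ 1 / Real.log A := by
    have : 0 < Real.log A := by linarith
    positivity
  have h3 : 100 * C * (1 / Real.log y - 1 / Real.log A) ≤ 100 * C * (1 / 1000) := by
    apply mul_le_mul_of_nonneg_left _ (by positivity)
    have : 1 / Real.log y ≤ 1 / 1000 := one_div_le_one_div_of_le (by norm_num) hly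
    linarith
  have h4 : 100 * C * (1 / 1000) = 100 * C / 1000 := by ring
  linarith

end Pool.Agent.TH237.AV
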