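import Pool.Agent.TH237.AV.Up

set_option autoImplicit false

/-! The number of steps near `y`, upper bound. -/

namespace Pool.Agent.TH237.AV

open Finset Pool.Agent.H320R2.PD Pool.Agent.H499R2.ND

open scoped Classical in
theorem filt_le {P : ℕ → Set ℤ} {M : ℤ} {L n : ℕ} (h : ∀ j < L, M ∈ P j → j < n) :
    (((range L).filter fun j => M ∈ P j).card : ℝ) ≤ n := by
  have h1 : ((range L).filter fun j => M ∈ P j) ⊆ range n := by
    intro j hj
    rw [mem_filter, mem_range] at hj
    exact mem_range.2 (h j hj.1 hj.2)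
  have h2 := card_le_card h1
  rw [card_range] at h2
  exact_mod_cast h2

theorem up_near (K : ℕ) : ∃ D : ℝ, 0 < D ∧ ∀ (L : ℕ) (y A : ℝ), 1000 ≤ Real.log y → 1 ≤ y → y ≤ A →
    Real.log A ≤ 1.1 * Real.log y → (L : ℝ) ≤ (Real.log A) ^ K → PUp L y A D := by
  obtain ⟨C, hC, hM⟩ := mass_bound20 20 le_rfl K
  have hc := c0_pos
  set F : ℝ := 6 * ((K + 1).factorial * 5 ^ (K + 1)) with hF
  refine ⟨c0 * 2 + 2 * c0 + 4 + C + F, by positivity, ?_⟩
  intro L y A hly hy hyA' hAy hLK m hm u v hu
  have hy0 : 0 < y := by linarith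
  have hA0 : 0 < A := by linarith
  have hyA := Real.log_le_log hy0 hyA'
  obtain ⟨c, hcls⟩ := cls_unit_all A (2 * A) m hu v
  simp only [hcls]
  set t := Real.log A with htdef
  have ht : 1000 ≤ t := by linarith
  have ht1 : 1 ≤ t := by linarith
  have htpos : 0 < t := by linarith
  set k := ⌊t / 2⌋₊ with hk
  have hk1 : (k : ℝ) ≤ t / 2 := Nat.floor_le (by linarith)
  have hk2 : t / 2 - 1 ≤ k := by linarith [Nat.lt_floor_add_one (t / 2)]
  have hk1N : 10 ≤ k := by
    have : (10 : ℝ) ≤ k := by linarith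
    exact_mod_cast this
  set G := GW (3 * k) k ((39 * k + 19) / 20) (41 * k / 20) with hG
  set s := 2 * Real.log 2 + t - Real.log y with hs
  have hl2 := Real.log_two_gt_d9
  have hl2' := Real.log_two_lt_d9
  have hl3 := log3_lt
  have hl3' := log3_gt
  have hs0 : 0 < s := by linarith
  have hcnt := count_le hA0.le (3 * k) k m ((39 * k + 19) / 20) (41 * k / 20) L (by omega) c
    (fun j => (Bs y j)ᶜ) (fun w => (tau s w : ℝ)) (by
      intro w hw M hM
      unfold GW at hw
      rw [mem_filter] at hw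
      obtain ⟨hlen, hlet⟩ := FW_props hw.1
      obtain ⟨x, hx, hV⟩ := XX_word hlen hM
      have hne : w ≠ [] := by
        intro h
        rw [h] at hlen; simp at hlen; omega
      have hMo := Vw_odd_left odd_one hlet hne hV
      rw [mem_XX] at hM
      have hz : 0 ≤ y / 2 := by linarith
      have hsM : (M : ℝ) ≤ y / 2 * Real.exp s + 0 := by
        rw [hs, Real.exp_sub, Real.exp_add, Real.exp_log hy0, htdef, Real.exp_log hA0,
          show 2 * Real.log 2 = Real.log 4 by
            rw [show (4 : ℝ) = 2 ^ 2 by norm_num, Real.log_pow]; push_cast; ring,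
          Real.exp_log (by norm_num)]
        have : y / 2 * (4 * A / y) + 0 = 2 * A := by field_simp; ring
        rw [this]
        exact hM.1.2.le
      have hend : s + w.length * Real.log 3 - (w.sum : ℕ) * Real.log 2 ≤ 0 := by
        rw [hlen]
        have h2 : 39 * k ≤ 20 * w.sum := by omega
        have h3 : (39 : ℝ) * k ≤ 20 * w.sum := by exact_mod_cast h2
        have h4 : (39 / 20 * k) * 0.6931471803 ≤ (w.sum : ℝ) * Real.log 2 := by
          apply mul_le_mul (by linarith) hl2.le (by norm_num) (Nat.cast_nonneg _)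
        have h5 : (k : ℝ) * Real.log 3 ≤ k * 1.1091 := mul_le_mul_of_nonneg_left hl3 (Nat.cast_nonneg _)
        linarith
      have hup := tau_up hz w hlet M x hMo hx hV s 0 le_rfl hsM hend
      have h32 : (3 / 2 : ℝ) ^ k ≤ y / 2 := by
        have h1 : (3 / 2 : ℝ) ^ k = Real.exp (k * (Real.log 3 - Real.log 2)) := by
          rw [Real.exp_nat_mul, Real.exp_sub, Real.exp_log (by norm_num), Real.exp_log (by norm_num)]
        have h2 : y / 2 = Real.exp (Real.log y - Real.log 2) := by
          rw [Real.exp_sub, Real.exp_log hy0, Real.exp_log (by norm_num)]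
        rw [h1, h2]
        apply Real.exp_le_exp.2
        have h3 : (k : ℝ) * (Real.log 3 - Real.log 2) ≤ k * 0.5 :=
          mul_le_mul_of_nonneg_left (by linarith) (Nat.cast_nonneg _)
        linarith
      rw [hlen] at hup
      have hB : M ∈ Bs y (tau s w) := ⟨tau s w, le_rfl, by linarith⟩
      refine filt_le (P := fun j => (Bs y j)ᶜ) fun j _ hj => ?_
      by_contra hcon
      rw [not_lt] at hcon
      apply hj
      obtain ⟨i, hi, h1⟩ := hB
      exact ⟨i, hi.trans hcon, h1⟩)
  rw [← hG] at hcnt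
  refine hcnt.trans ?_
  set Y := A / (2 * 3 ^ m) with hY
  have hY0 : 0 < Y := by positivity
  have hτk : ∀ w ∈ G, (tau s w : ℝ) ≤ k := by
    intro w hw
    rw [hG] at hw
    unfold GW at hw
    have := tau_le w s
    rw [FW_length (mem_filter.1 hw).1] at this
    exact_mod_cast this
  have h2 : ∑ w ∈ G, ((XX 1 A k m c w).card : ℝ) * tau s w
      ≤ Y * ∑ w ∈ G, wwt w * tau s w + k * G.card := by
    have h3 : (k : ℝ) * G.card = ∑ w ∈ G, (k : ℝ) := by rw [sum_const, nsmul_eq_mul, mul_comm]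
    rw [h3, mul_sum, ← sum_add_distrib]
    apply sum_le_sum
    intro w hw
    have h4 := XX_card_le 1 hA0.le k m c w
    rw [← hY] at h4
    have h5 := hτk w hw
    have h6 : (0 : ℝ) ≤ tau s w := Nat.cast_nonneg _
    nlinarith
  have h2' : Y * ∑ w ∈ G, wwt w - G.card ≤ ∑ w ∈ G, ((XX 1 A k m c w).card : ℝ) := by
    have h3 : (G.card : ℝ) = ∑ w ∈ G, (1 : ℝ) := by rw [sum_const, nsmul_eq_mul, mul_one]
    rw [h3, mul_sum, ← sum_sub_distrib]
    exact sum_le_sum fun w _ => XX_card 1 k m c w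
  have h3 := W_GW_le (3 * k) k ((39 * k + 19) / 20) (41 * k / 20) s
  rw [← hG] at h3
  have h4 := W_upper (3 * k) k s hs0
  set μ := ∑ w ∈ G, wwt w with hμ
  have hμ1 : 0 ≤ 1 - μ := mass_nonneg _ _ _ _
  have hμ2 : 1 - μ ≤ C / (10 * t) ^ K := by
    have h4 := hM (10 * t) (by linarith) k (by rw [hk]; congr 1; ring)
    refine le_trans ?_ h4
    rw [hμ, hG]
    have h5 : Tlo 20 k = (39 * k + 19) / 20 := by unfold Tlo; norm_num
    have h6 : Thi 20 k = 41 * k / 20 := by unfold Thi; norm_num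
    rw [h5, h6]
  have hμL : L * (1 - μ) ≤ C := by
    calc L * (1 - μ) ≤ t ^ K * (C / (10 * t) ^ K) :=
          mul_le_mul hLK hμ2 hμ1 (by positivity)
      _ = C / 10 ^ K := by rw [mul_pow]; field_simp
      _ ≤ C := div_le_self hC.le (one_le_pow₀ (by norm_num))
  have h6 := pow8 k hk1N
  have h7 : (k : ℝ) * (c0 * Real.log 2 * ((3 * k : ℕ) * (1 / 2) ^ (3 * k))) ≤ 4 := by
    have h8 : c0 * Real.log 2 ≤ 4 * 1 := mul_le_mul c0_lt (by linarith) (by linarith) (by norm_num)
    have h9 : (k : ℝ) * ((3 * k : ℕ) * (1 / 2) ^ (3 * k)) ≤ 1 := by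
      refine le_trans ?_ h6
      push_cast
      have : (0 : ℝ) ≤ k := Nat.cast_nonneg _
      calc (k : ℝ) * (3 * k * (1 / 2) ^ (3 * k)) = (1 / 2) ^ (3 * k) * (k * (3 * k)) := by ring
        _ ≤ _ := by
          apply mul_le_mul_of_nonneg_left _ (by positivity)
          nlinarith
    calc (k : ℝ) * (c0 * Real.log 2 * ((3 * k : ℕ) * (1 / 2) ^ (3 * k)))
        = (c0 * Real.log 2) * ((k : ℝ) * ((3 * k : ℕ) * (1 / 2) ^ (3 * k))) := by ring
      _ ≤ (4 * 1) * 1 := mul_le_mul h8 h9 (by positivity) (by norm_num)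
      _ = 4 := by norm_num
  have h8 : W (3 * k) k s ≤ c0 * (t - Real.log y) + (c0 * 2 + 2 * c0 + 4) := by
    have h9 : c0 * s = c0 * (t - Real.log y) + c0 * (2 * Real.log 2) := by rw [hs]; ring
    have h10 : c0 * (2 * Real.log 2) ≤ c0 * 2 := mul_le_mul_of_nonneg_left (by linarith) hc.le
    have h11 : 2 * c0 * Real.log 2 ≤ 2 * c0 * 1 := mul_le_mul_of_nonneg_left (by linarith) (by positivity)
    linarith
  -- the errors
  have hGc := GW_card (3 * k) k ((39 * k + 19) / 20) (41 * k / 20)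
  rw [← hG] at hGc
  have h9 : (k : ℝ) * G.card + L * (1 + G.card) ≤ F * Y := by
    have h10 := pow_tm_le htpos.le hk1
    have h11 := pow_m_le ht hm
    have h12 := exp_neg_le (K + 1) (by norm_num : (0 : ℝ) < 5) htpos
    have h15 : 1 ≤ Real.exp (0.7106 * t) := Real.one_le_exp (by positivity)
    have htK : t ≤ t ^ (K + 1) := by
      calc t = t ^ 1 := (pow_one t).symm
        _ ≤ t ^ (K + 1) := pow_le_pow_right₀ ht1 (by omega)
    have htK' : t ^ K ≤ t ^ (K + 1) := pow_le_pow_right₀ ht1 (by omega)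
    have h13 : (k : ℝ) * G.card + L * (1 + G.card) ≤ (3 * t ^ (K + 1)) * Real.exp (0.7106 * t) := by
      have h14 : (k : ℝ) * G.card ≤ t ^ (K + 1) * Real.exp (0.7106 * t) := by
        apply mul_le_mul (by linarith) (hGc.trans h10) (Nat.cast_nonneg _) (by positivity)
      have h16 : (L : ℝ) * (1 + G.card) ≤ t ^ (K + 1) * (Real.exp (0.7106 * t) + Real.exp (0.7106 * t)) := by
        apply mul_le_mul (hLK.trans htK') _ (by positivity) (by positivity)
        linarith [hGc.trans h10]
      linarith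
    refine h13.trans ?_
    rw [hY, mul_div_assoc', le_div_iff₀ (by positivity)]
    have h14 : A = Real.exp t := (Real.exp_log hA0).symm
    calc 3 * t ^ (K + 1) * Real.exp (0.7106 * t) * (2 * 3 ^ m)
        ≤ 3 * t ^ (K + 1) * Real.exp (0.7106 * t) * (2 * Real.exp (0.05 * t)) := by
          apply mul_le_mul_of_nonneg_left _ (by positivity)
          linarith
      _ = 6 * t ^ (K + 1) * (Real.exp (0.7106 * t) * Real.exp (0.05 * t)) := by ring
      _ = 6 * t ^ (K + 1) * Real.exp (0.7106 * t + 0.05 * t) := by rw [← Real.exp_add]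
      _ ≤ 6 * t ^ (K + 1) * Real.exp (-(t / 5) + t) := by
          apply mul_le_mul_of_nonneg_left _ (by positivity)
          apply Real.exp_le_exp.2
          linarith
      _ = 6 * t ^ (K + 1) * Real.exp (-(t / 5)) * Real.exp t := by rw [Real.exp_add]; ring
      _ ≤ 6 * t ^ (K + 1) * (((K + 1).factorial * 5 ^ (K + 1)) / t ^ (K + 1)) * Real.exp t := by
          apply mul_le_mul_of_nonneg_right _ (Real.exp_pos _).le
          exact mul_le_mul_of_nonneg_left h12 (by positivity)
      _ = F * A := by rw [h14, hF]; field_simp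
  have h10 : Y * ∑ w ∈ G, wwt w * tau s w ≤ (c0 * (t - Real.log y) + (c0 * 2 + 2 * c0 + 4)) * Y := by
    have := mul_le_mul_of_nonneg_left (h3.trans h8) hY0.le
    linarith
  have h11 : L * (Y + 1 - ∑ w ∈ G, ((XX 1 A k m c w).card : ℝ))
      ≤ C * Y + L * (1 + G.card) := by
    have h12 : Y + 1 - ∑ w ∈ G, ((XX 1 A k m c w).card : ℝ) ≤ Y * (1 - μ) + (1 + G.card) := by linarith
    calc L * (Y + 1 - ∑ w ∈ G, ((XX 1 A k m c w).card : ℝ)) ≤ L * (Y * (1 - μ) + (1 + G.card)) :=
          mul_le_mul_of_nonneg_left h12 (Nat.cast_nonneg _)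
      _ = L * (1 - μ) * Y + L * (1 + G.card) := by ring
      _ ≤ _ := by
          have := mul_le_mul_of_nonneg_right hμL hY0.le
          linarith
  have h12 : (c0 * (t - Real.log y) + (c0 * 2 + 2 * c0 + 4 + C + F)) * Y
      = (c0 * (t - Real.log y) + (c0 * 2 + 2 * c0 + 4)) * Y + C * Y + F * Y := by ring
  rw [h12]
  linarith

/-- THE UPPER BOUND, all scales -/
theorem up_main (K : ℕ) : ∃ D : ℝ, 0 < D ∧ ∀ (L : ℕ) (y A : ℝ), 1 ≤ y → y ≤ A →
    (L : ℝ) ≤ (Real.log y) ^ K → Real.log A ≤ L → PUp L y A D := by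
  obtain ⟨C, hC, h⟩ := up_all K
  obtain ⟨D₁, hD₁, h₁⟩ := up_near K
  refine ⟨D₁ + C + 6 * 1000 ^ K, by positivity, fun L y A hy hyA hLK hLA => ?_⟩
  have hy0 : 0 < y := by linarith
  have hA0 : 0 < A := by linarith
  rcases le_or_gt 1000 (Real.log y) with h1 | h1
  · refine (h L y D₁ h1 hy hD₁.le hLK ?_ A hyA hLA).mono hA0 ?_
    · intro A' hA' hA'2
      apply h₁ L y A' h1 hy hA' hA'2
      refine hLK.trans (pow_le_pow_left₀ (by linarith) ?_ K)
      exact Real.log_le_log hy0 hA'
    · have : (0 : ℝ) ≤ 6 * 1000 ^ K := by positivity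
      linarith
  · intro m hm u v hu
    have hlogy : 0 ≤ Real.log y := Real.log_nonneg hy
    have hL : (L : ℝ) ≤ 1000 ^ K := hLK.trans (pow_le_pow_left₀ hlogy h1.le K)
    set t := Real.log A with ht
    have hyt : Real.log y ≤ t := Real.log_le_log hy0 hyA
    have ht0 : 0 ≤ t := by linarith
    set Y := A / (2 * 3 ^ m) with hY
    have hY0 : 0 < Y := by positivity
    have h2 : ∑ j ∈ range L, ((cls (Bs y j)ᶜ A (2 * A) m u v).card : ℝ) ≤ L * (Y + 1) := by
      calc ∑ j ∈ range L, ((cls (Bs y j)ᶜ A (2 * A) m u v).card : ℝ)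
          ≤ ∑ j ∈ range L, (Y + 1) := by
            apply sum_le_sum
            intro j _
            have := cls_card_le (Bs y j)ᶜ (by linarith : A ≤ 2 * A) m hu v
            rw [show 2 * A - A = A by ring] at this
            exact this
        _ = _ := by rw [sum_const, card_range, nsmul_eq_mul]
    refine h2.trans ?_
    have h3 : 1 ≤ 5 * Y := by
      rw [hY, mul_div_assoc', le_div_iff₀ (by positivity), one_mul]
      have h3 : (3 : ℝ) ^ m ≤ Real.exp (0.72 + t / 2) := by
        have h4 : (3 : ℝ) ^ m = Real.exp (m * Real.log 3) := by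
          rw [Real.exp_nat_mul, Real.exp_log (by norm_num)]
        rw [h4]
        apply Real.exp_le_exp.2
        have h5 := log3_lt
        have h6 : (m : ℝ) * Real.log 3 ≤ m * 1.2 := mul_le_mul_of_nonneg_left (by linarith) (Nat.cast_nonneg m)
        nlinarith [sq_nonneg ((m : ℝ) - 1.2)]
      have h4 : Real.exp 0.72 ≤ 2.5 := by
        have h5 : Real.exp 0.72 = Real.exp 0.36 * Real.exp 0.36 := by rw [← Real.exp_add]; norm_num
        have h6 := Real.exp_bound_div_one_sub_of_interval (x := 0.36) (by norm_num) (by norm_num)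
        have h7 : Real.exp 0.36 ≤ 1.5625 := h6.trans (by norm_num)
        have h8 := Real.exp_pos 0.36
        rw [h5]
        nlinarith
      have h7 : Real.exp (0.72 + t / 2) = Real.exp 0.72 * Real.exp (t / 2) := Real.exp_add _ _
      have h8 : Real.exp (t / 2) ≤ A := by
        have : A = Real.exp t := (Real.exp_log hA0).symm
        rw [this]
        exact Real.exp_le_exp.2 (by linarith)
      rw [h7] at h3
      have h9 := Real.exp_pos (t / 2)
      nlinarith
    have h4 : (L : ℝ) * (Y + 1) ≤ 1000 ^ K * (Y + 5 * Y) :=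
      mul_le_mul hL (by linarith) (by linarith) (by positivity)
    have hc := c0_pos
    have h5 : 0 ≤ c0 * (t - Real.log y) + D₁ + C := by
      have : 0 ≤ c0 * (t - Real.log y) := mul_nonneg hc.le (by linarith)
      linarith
    have h6 := mul_nonneg h5 hY0.le
    have h7 : (c0 * (t - Real.log y) + (D₁ + C + 6 * 1000 ^ K)) * Y
        = (c0 * (t - Real.log y) + D₁ + C) * Y + 1000 ^ K * (Y + 5 * Y) := by ring
    rw [h7]
    linarith

end Pool.Agent.TH237.AV
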