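import Pool.Agent.TH237.AV.Stage

set_option autoImplicit false

/-! The first passage of the random walk with steps `log 3 - e log 2`, `e` geometric: mean values. -/

namespace Pool.Agent.TH237.AV

open Finset Pool.Agent.H320R2.PD Pool.Agent.H499R2.ND

/-- `1 / log (4/3)` -/
noncomputable def c0 : ℝ := 1 / (2 * Real.log 2 - Real.log 3)

theorem log3_lt : Real.log 3 ≤ 1.1091 := by
  have h1 := log3_le
  have h2 := Real.log_two_lt_d9
  linarith

theorem log3_gt : 1.0974 ≤ Real.log 3 := by
  have h1 := log3_ge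
  have h2 := Real.log_two_gt_d9
  linarith

theorem den_pos : 0 < 2 * Real.log 2 - Real.log 3 := by
  have h1 := log3_lt
  have h2 := Real.log_two_gt_d9
  linarith

theorem c0_pos : 0 < c0 := one_div_pos.2 den_pos

theorem c0_mul : c0 * (2 * Real.log 2 - Real.log 3) = 1 := by
  unfold c0
  rw [one_div, inv_mul_cancel₀ den_pos.ne']

theorem c0_lt : c0 ≤ 4 := by
  unfold c0
  rw [div_le_iff₀ den_pos]
  have h1 := log3_lt
  have h2 := Real.log_two_gt_d9
  linarith

/-- steps of the walk from `s` while it is positive, at most all letters of `l` -/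
noncomputable def tau' (s : ℝ) : List ℕ → ℕ
  | [] => 0
  | e :: l => if s ≤ 0 then 0 else 1 + tau' (s + Real.log 3 - e * Real.log 2) l

/-- the same for a word, read from its end -/
noncomputable def tau (s : ℝ) (w : List ℕ) : ℕ := tau' s w.reverse

theorem tau_nil (s : ℝ) : tau s [] = 0 := rfl

theorem tau_snoc (s : ℝ) (u : List ℕ) (e : ℕ) :
    tau s (u ++ [e]) = if s ≤ 0 then 0 else 1 + tau (s + Real.log 3 - e * Real.log 2) u := by
  unfold tau
  rw [List.reverse_append, List.reverse_singleton, List.singleton_append]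
  rfl

theorem tau_of_nonpos {s : ℝ} (hs : s ≤ 0) (w : List ℕ) : tau s w = 0 := by
  induction w using List.reverseRecOn with
  | nil => rfl
  | append_singleton u e _ => rw [tau_snoc, if_pos hs]

theorem tau_le (w : List ℕ) : ∀ s : ℝ, tau s w ≤ w.length := by
  induction w using List.reverseRecOn with
  | nil => intro s; simp [tau_nil]
  | append_singleton u e ih =>
    intro s
    rw [tau_snoc, List.length_append, List.length_singleton]
    split_ifs
    · omega
    · have := ih (s + Real.log 3 - e * Real.log 2)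
      omega

/-- the mean of `tau` over the words of length `k` with letters `≤ A` -/
noncomputable def W (A k : ℕ) (s : ℝ) : ℝ := ∑ w ∈ FW A k, wwt w * tau s w

/-- the mean of the positive part of the endpoint -/
noncomputable def R (A k : ℕ) (s : ℝ) : ℝ :=
  ∑ w ∈ FW A k, wwt w * max 0 (s + k * Real.log 3 - w.sum * Real.log 2)

theorem W_nonneg (A k : ℕ) (s : ℝ) : 0 ≤ W A k s :=
  sum_nonneg fun w _ => mul_nonneg (wwt_nonneg w) (Nat.cast_nonneg _)

theorem R_nonneg (A k : ℕ) (s : ℝ) : 0 ≤ R A k s :=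
  sum_nonneg fun w _ => mul_nonneg (wwt_nonneg w) (le_max_left _ _)

theorem wwt_snoc (u : List ℕ) (e : ℕ) : wwt (u ++ [e]) = (1 / 2 : ℝ) ^ e * wwt u := by
  unfold wwt
  rw [List.sum_append, List.sum_singleton, pow_add]
  ring

theorem W_zero (A : ℕ) (s : ℝ) : W A 0 s = 0 := by
  unfold W
  rw [sum_FW_zero, tau_nil]
  simp

theorem W_of_nonpos (A k : ℕ) {s : ℝ} (hs : s ≤ 0) : W A k s = 0 := by
  unfold W
  apply sum_eq_zero
  intro w _
  rw [tau_of_nonpos hs]
  simp

theorem W_succ (A k : ℕ) {s : ℝ} (hs : 0 < s) :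
    W A (k + 1) s = ∑ e ∈ Icc 1 A, (1 / 2 : ℝ) ^ e * ((∑ u ∈ FW A k, wwt u)
      + W A k (s + Real.log 3 - e * Real.log 2)) := by
  unfold W
  rw [sum_FW_snoc, sum_comm]
  apply sum_congr rfl
  intro e _
  rw [← sum_add_distrib, mul_sum]
  apply sum_congr rfl
  intro u _
  rw [wwt_snoc, tau_snoc, if_neg (not_le.2 hs)]
  push_cast
  ring

theorem R_succ (A k : ℕ) (s : ℝ) :
    R A (k + 1) s = ∑ e ∈ Icc 1 A, (1 / 2 : ℝ) ^ e * R A k (s + Real.log 3 - e * Real.log 2) := by
  unfold R
  rw [sum_FW_snoc, sum_comm]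
  apply sum_congr rfl
  intro e _
  rw [mul_sum]
  apply sum_congr rfl
  intro u _
  rw [wwt_snoc, List.sum_append, List.sum_singleton, mul_assoc]
  congr 3
  rw [Nat.cast_add, Nat.cast_add, Nat.cast_one]
  ring

theorem sum_lin (A : ℕ) (a b : ℝ) : ∑ e ∈ Icc 1 A, (1 / 2 : ℝ) ^ e * (a - e * b)
    = (a - 2 * b) * (1 - (1 / 2) ^ A) + b * (A * (1 / 2) ^ A) := by
  have h1 := sum_Icc_mean A
  have h2 := sum_Icc_half A
  have h3 : ∑ e ∈ Icc 1 A, (1 / 2 : ℝ) ^ e * (a - e * b)
      = (a - 2 * b) * ∑ e ∈ Icc 1 A, (1 / 2 : ℝ) ^ e - b * ∑ e ∈ Icc 1 A, (1 / 2 : ℝ) ^ e * ((e : ℝ) - 2) := by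
    rw [mul_sum, mul_sum, ← sum_sub_distrib]
    apply sum_congr rfl
    intro e _
    ring
  rw [h3, h1, h2]
  ring

/-- LOWER BOUND for the mean -/
theorem W_lower (A K : ℕ) {S : ℝ} (hS : 0 ≤ S) : ∀ k ≤ K, ∀ s : ℝ, s + k * Real.log 3 ≤ S →
    c0 * s - k * ((1 / 2) ^ A * (K + c0 * S)) ≤ W A k s + c0 * R A k s := by
  have hc := c0_pos
  have hq : (0 : ℝ) < (1 / 2) ^ A := by positivity
  have hq1 : (1 / 2 : ℝ) ^ A ≤ 1 := pow_le_one₀ (by norm_num) (by norm_num)
  have hl3 := log3_gt
  have hl2 := Real.log_two_gt_d9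
  intro k
  induction k with
  | zero =>
    intro _ s _
    have h1 : s ≤ R A 0 s := by
      unfold R
      rw [sum_FW_zero]
      unfold wwt
      simp
    rw [W_zero]
    have := mul_le_mul_of_nonneg_left h1 hc.le
    simp
    linarith
  | succ k ih =>
    intro hk s hs
    have hKS : 0 ≤ (1 / 2 : ℝ) ^ A * (K + c0 * S) := by positivity
    rcases le_or_gt s 0 with h0 | h0
    · have h1 := W_nonneg A (k + 1) s
      have h2 := mul_nonneg hc.le (R_nonneg A (k + 1) s)
      have h3 : c0 * s ≤ 0 := mul_nonpos_of_nonneg_of_nonpos hc.le h0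
      have h4 : 0 ≤ ((k + 1 : ℕ) : ℝ) * ((1 / 2) ^ A * (K + c0 * S)) := by positivity
      linarith
    · rw [W_succ A k h0, R_succ, mul_sum, ← sum_add_distrib]
      have h1 : ∀ e ∈ Icc 1 A, (1 / 2 : ℝ) ^ e * ((∑ u ∈ FW A k, wwt u - k * ((1 / 2) ^ A * (K + c0 * S))
            + c0 * (s + Real.log 3)) - e * (c0 * Real.log 2))
          ≤ (1 / 2 : ℝ) ^ e * ((∑ u ∈ FW A k, wwt u) + W A k (s + Real.log 3 - e * Real.log 2))
            + c0 * ((1 / 2 : ℝ) ^ e * R A k (s + Real.log 3 - e * Real.log 2)) := by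
        intro e he
        have h2 := ih (by omega) (s + Real.log 3 - e * Real.log 2) (by
          push_cast at hs
          have : 0 ≤ (e : ℝ) * Real.log 2 := by positivity
          linarith)
        have h3 : (0 : ℝ) ≤ (1 / 2) ^ e := by positivity
        have h4 := mul_le_mul_of_nonneg_left h2 h3
        calc (1 / 2 : ℝ) ^ e * ((∑ u ∈ FW A k, wwt u - k * ((1 / 2) ^ A * (K + c0 * S))
            + c0 * (s + Real.log 3)) - e * (c0 * Real.log 2))
            = (1 / 2 : ℝ) ^ e * (∑ u ∈ FW A k, wwt u) + (1 / 2 : ℝ) ^ e * (c0 * (s + Real.log 3 - e * Real.log 2)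
              - k * ((1 / 2) ^ A * (K + c0 * S))) := by ring
          _ ≤ (1 / 2 : ℝ) ^ e * (∑ u ∈ FW A k, wwt u) + (1 / 2 : ℝ) ^ e * (W A k (s + Real.log 3 - e * Real.log 2)
              + c0 * R A k (s + Real.log 3 - e * Real.log 2)) := by linarith
          _ = _ := by ring
      refine le_trans ?_ (sum_le_sum h1)
      rw [sum_lin]
      have hmass : 1 - k * (1 / 2 : ℝ) ^ A ≤ ∑ u ∈ FW A k, wwt u := by
        rw [sum_wwt]
        have := one_add_mul_le_pow (a := -(1 / 2 : ℝ) ^ A) (by linarith) k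
        rw [← sub_eq_add_neg] at this
        linarith
      have hmass1 := sum_wwt_le A k
      set μ := ∑ u ∈ FW A k, wwt u
      set q := (1 / 2 : ℝ) ^ A with hqdef
      have hcm := c0_mul
      have hkR : (k : ℝ) + 1 ≤ K := by exact_mod_cast hk
      have hk0 : (0 : ℝ) ≤ k := Nat.cast_nonneg k
      have hsS : s + Real.log 3 ≤ S := by
        push_cast at hs
        nlinarith
      have e1 : (μ - k * (q * (K + c0 * S)) + c0 * (s + Real.log 3) - 2 * (c0 * Real.log 2)) * (1 - q)
          = (μ - k * (q * (K + c0 * S)) + c0 * s - 1) * (1 - q) := by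
        have : c0 * Real.log 3 = 2 * (c0 * Real.log 2) - 1 := by linarith
        rw [show c0 * (s + Real.log 3) = c0 * s + c0 * Real.log 3 by ring, this]
        ring
      rw [e1]
      have h5 : 0 ≤ c0 * Real.log 2 * (A * q) := by positivity
      have h6 : 0 ≤ k * (q * (K + c0 * S)) * q := by positivity
      have h7 : c0 * s * q ≤ c0 * S * q := by
        apply mul_le_mul_of_nonneg_right _ hq.le
        apply mul_le_mul_of_nonneg_left _ hc.le
        linarith
      have h8 : 0 ≤ (1 - μ) * q := mul_nonneg (by linarith) hq.le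
      have h9 : (k : ℝ) * q ≤ K * q := mul_le_mul_of_nonneg_right (by linarith) hq.le
      push_cast
      nlinarith

/-- the overshoot -/
theorem ovr (s : ℝ) (hs : 0 < s) (n : ℕ) :
    (if s + Real.log 3 ≤ n * Real.log 2 then (1 / 2 : ℝ) ^ n * (c0 * (n * Real.log 2 - (s + Real.log 3))) else 0)
      ≤ ∑ e ∈ Icc 1 n, (if s + Real.log 3 ≤ e * Real.log 2 then
        (1 / 2 : ℝ) ^ e * (c0 * (s + Real.log 3 - e * Real.log 2) + 2 * c0 * Real.log 2) else 0) := by
  have hc := c0_pos
  have hl3 := log3_gt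
  have hl2 := Real.log_two_gt_d9
  induction n with
  | zero =>
    rw [if_neg (by push_cast; linarith)]
    simp
  | succ n ih =>
    rw [sum_Icc_succ_top (by omega)]
    have hq : (0 : ℝ) < (1 / 2) ^ n := by positivity
    by_cases h1 : s + Real.log 3 ≤ n * Real.log 2
    · have h2 : s + Real.log 3 ≤ ((n + 1 : ℕ) : ℝ) * Real.log 2 := by push_cast; linarith
      rw [if_pos h2, if_pos h2]
      rw [if_pos h1] at ih
      refine le_trans ?_ (add_le_add_left ih _)
      rw [pow_succ]
      push_cast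
      apply le_of_eq
      ring
    · rw [if_neg h1] at ih
      by_cases h2 : s + Real.log 3 ≤ ((n + 1 : ℕ) : ℝ) * Real.log 2
      · rw [if_pos h2, if_pos h2]
        rw [not_le] at h1
        refine le_trans ?_ (add_le_add_left ih _)
        rw [zero_add]
        apply mul_le_mul_of_nonneg_left _ (by positivity)
        push_cast at h2 ⊢
        have h3 : c0 * (n * Real.log 2) ≤ c0 * (s + Real.log 3) := mul_le_mul_of_nonneg_left h1.le hc.le
        nlinarith
      · rw [if_neg h2, if_neg h2, add_zero]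
        exact ih

/-- UPPER BOUND for the mean -/
theorem W_upper (A : ℕ) : ∀ k : ℕ, ∀ s : ℝ, 0 < s →
    W A k s ≤ c0 * s + 2 * c0 * Real.log 2 + k * (c0 * Real.log 2 * (A * (1 / 2) ^ A)) := by
  have hc := c0_pos
  have hq : (0 : ℝ) < (1 / 2) ^ A := by positivity
  have hq1 : (1 / 2 : ℝ) ^ A ≤ 1 := pow_le_one₀ (by norm_num) (by norm_num)
  have hl3 := log3_gt
  have hl2 := Real.log_two_gt_d9
  intro k
  induction k with
  | zero =>
    intro s hs
    rw [W_zero]
    positivity
  | succ k ih =>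
    intro s hs
    rw [W_succ A k hs]
    set ε := c0 * Real.log 2 * (A * (1 / 2) ^ A) with hε
    have hε0 : 0 ≤ ε := by positivity
    have hmass1 := sum_wwt_le A k
    have hov := ovr s hs A
    have hov0 : 0 ≤ ∑ e ∈ Icc 1 A, (if s + Real.log 3 ≤ e * Real.log 2 then
        (1 / 2 : ℝ) ^ e * (c0 * (s + Real.log 3 - e * Real.log 2) + 2 * c0 * Real.log 2) else 0) := by
      refine le_trans ?_ hov
      split_ifs with h
      · apply mul_nonneg (by positivity) (mul_nonneg hc.le (by linarith))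
      · exact le_refl _
    have h1 : ∀ e ∈ Icc 1 A, (1 / 2 : ℝ) ^ e * ((∑ u ∈ FW A k, wwt u)
        + W A k (s + Real.log 3 - e * Real.log 2))
        ≤ (1 / 2 : ℝ) ^ e * ((1 + c0 * (s + Real.log 3) + 2 * c0 * Real.log 2 + k * ε) - e * (c0 * Real.log 2))
          - (if s + Real.log 3 ≤ e * Real.log 2 then
        (1 / 2 : ℝ) ^ e * (c0 * (s + Real.log 3 - e * Real.log 2) + 2 * c0 * Real.log 2) else 0) := by
      intro e he
      have h3 : (0 : ℝ) < (1 / 2) ^ e := by positivity
      have hkε : 0 ≤ k * ε := by positivity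
      split_ifs with h
      · rw [W_of_nonpos A k (by linarith), add_zero]
        have h4 : (1 / 2 : ℝ) ^ e * (∑ u ∈ FW A k, wwt u) ≤ (1 / 2 : ℝ) ^ e * 1 :=
          mul_le_mul_of_nonneg_left hmass1 h3.le
        have h5 : 0 ≤ (1 / 2 : ℝ) ^ e * (k * ε) := by positivity
        nlinarith
      · rw [not_le] at h
        have h4 := ih (s + Real.log 3 - e * Real.log 2) (by linarith)
        rw [sub_zero]
        apply mul_le_mul_of_nonneg_left _ h3.le
        linarith
    refine (sum_le_sum h1).trans ?_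
    rw [sum_sub_distrib, sum_lin]
    have hcm := c0_mul
    have e1 : 1 + c0 * (s + Real.log 3) + 2 * c0 * Real.log 2 + k * ε - 2 * (c0 * Real.log 2)
        = c0 * s + 2 * c0 * Real.log 2 + k * ε := by
      have : c0 * Real.log 3 = 2 * (c0 * Real.log 2) - 1 := by linarith
      rw [show c0 * (s + Real.log 3) = c0 * s + c0 * Real.log 3 by ring, this]
      ring
    rw [e1]
    have h2 : 0 ≤ (c0 * s + 2 * c0 * Real.log 2 + k * ε) * (1 / 2) ^ A := by positivity
    push_cast
    rw [← hε]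
    linarith

end Pool.Agent.TH237.AV
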